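import Pool.Agent.Q183.AM.Cartan7
import Pool.Agent.Q183.AM.Cartan9
import Pool.Agent.W223.VD.Stms
import Pool.Agent.W125.CV.HT
import Pool.Agent.W223.AC.Key

/-!
The truncated counting function of the points `a_j` of the line at `X_0 / X_1`.
-/

set_option autoImplicit false

namespace Pool.Agent.Q183.VC

open IsDedekindDomain NumberField Height
open Pool.Agent.Q183.AM

variable {K : Type} [Field K] [NumberField K]

/-- the equations `den(a_j) X_0 - num(a_j) X_1` of the points `a_j` -/
def eqn (K : Type) [Field K] [NumberField K] {q : ℕ} (a : Fin q → ℚ) (j : Fin q) : Fin 2 → 𝓞 K :=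
  ![((a j).den : 𝓞 K), -((a j).num : 𝓞 K)]

theorem eqn_det {q : ℕ} (a : Fin q → ℚ) (ha : Function.Injective a) (B : Fin (1 + 1) ↪ Fin q) :
    (Matrix.of fun i k => eqn K a (B i) k).det ≠ 0 := by
  rw [Matrix.det_fin_two]
  have h1 : a (B 0) ≠ a (B 1) := fun h => absurd (B.injective (ha h)) (by decide)
  have h2 : (a (B 1)).num * (a (B 0)).den - (a (B 0)).num * (a (B 1)).den ≠ 0 := by
    intro h
    exact h1 (Rat.eq_iff_mul_eq_mul.mpr (sub_eq_zero.1 h).symm)
  show ((a (B 0)).den : 𝓞 K) * (-((a (B 1)).num : 𝓞 K)) -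
    (-((a (B 0)).num : 𝓞 K)) * ((a (B 1)).den : 𝓞 K) ≠ 0
  intro h
  apply h2
  have h3 : (((a (B 1)).num * (a (B 0)).den - (a (B 0)).num * (a (B 1)).den : ℤ) : 𝓞 K) = 0 := by
    push_cast
    linear_combination -h
  exact_mod_cast h3

/-- the primes above `S` and those which divide a determinant -/
def badT (K : Type) [Field K] [NumberField K] (S : Finset ℕ) {q : ℕ} (a : Fin q → ℚ) :
    Set (HeightOneSpectrum (𝓞 K)) :=
  {v | (∏ p ∈ S, (p : 𝓞 K)) * ∏ B : Fin (1 + 1) ↪ Fin q,
    (Matrix.of fun i k => eqn K a (B i) k).det ∈ v.asIdeal}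

theorem badT_finite (S : Finset ℕ) (hS : ∀ p ∈ S, p ≠ 0) {q : ℕ} (a : Fin q → ℚ)
    (ha : Function.Injective a) : (badT K S a).Finite := by
  have h1 : (∏ p ∈ S, (p : 𝓞 K)) * ∏ B : Fin (1 + 1) ↪ Fin q,
      (Matrix.of fun i k => eqn K a (B i) k).det ≠ 0 :=
    mul_ne_zero (Finset.prod_ne_zero_iff.2 fun p hp => by exact_mod_cast hS p hp)
      (Finset.prod_ne_zero_iff.2 fun B _ => eqn_det a ha B)
  have h2 := Ideal.finite_factors (R := 𝓞 K) (I := Ideal.span {(∏ p ∈ S, (p : 𝓞 K)) *
    ∏ B : Fin (1 + 1) ↪ Fin q, (Matrix.of fun i k => eqn K a (B i) k).det})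
    (by rw [Ne, Ideal.zero_eq_bot, Ideal.span_singleton_eq_bot]; exact h1)
  refine h2.subset fun v hv => ?_
  rw [Set.mem_ofPred_eq, Ideal.dvd_span_singleton]
  exact hv

theorem eqn_form {q : ℕ} (a : Fin q → ℚ) (j : Fin q) (x : Fin 2 → K) :
    ∑ k, ((eqn K a j k : 𝓞 K) : K) * x k = ((a j).den : K) * x 0 - ((a j).num : K) * x 1 := by
  rw [Fin.sum_univ_two]
  have h1 : ((eqn K a j 0 : 𝓞 K) : K) = ((a j).den : K) := map_natCast (algebraMap (𝓞 K) K) _
  have h2 : ((eqn K a j 1 : 𝓞 K) : K) = -((a j).num : K) := by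
    show algebraMap (𝓞 K) K (-((a j).num : 𝓞 K)) = _
    rw [map_neg, map_intCast]
  rw [h1, h2]
  ring

theorem near_iff {q : ℕ} (a : Fin q → ℚ) (j : Fin q) (v : HeightOneSpectrum (𝓞 K))
    (X : Fin (1 + 1) → 𝓞 K) (hX : X 1 ≠ 0) :
    v.valuation K (((Pool.Agent.W223.AC.pt (a j)).1 : K) -
        (X 0 : K) / (X 1 : K) * ((Pool.Agent.W223.AC.pt (a j)).2 : K)) <
      max (v.valuation K ((X 0 : K) / (X 1 : K))) 1 ↔
    FinitePlace.mk v (∑ k, ((eqn K a j k : 𝓞 K) : K) * (X k : K)) <
      siz (n := 1) v (fun k => (X k : K)) := by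
  have hX' : (X 1 : K) ≠ 0 := RingOfIntegers.coe_ne_zero_iff.mpr hX
  have hmono : StrictMono (WithZeroMulInt.toNNReal
      (HeightOneSpectrum.absNorm_ne_zero v)) :=
    WithZeroMulInt.toNNReal_strictMono (HeightOneSpectrum.one_lt_absNorm_nnreal v)
  have e : ∀ y : K, FinitePlace.mk v y = WithZeroMulInt.toNNReal
      (HeightOneSpectrum.absNorm_ne_zero v) (v.valuation K y) := Pool.Agent.W125.CV.fv_eq v
  have hlt : ∀ y z : K, v.valuation K y < v.valuation K z ↔
      FinitePlace.mk v y < FinitePlace.mk v z := by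
    intro y z
    rw [e, e, NNReal.coe_lt_coe]
    exact (hmono.lt_iff_lt).symm
  have h1 : (∑ k, ((eqn K a j k : 𝓞 K) : K) * (X k : K)) =
      -((X 1 : K) * (((Pool.Agent.W223.AC.pt (a j)).1 : K) -
        (X 0 : K) / (X 1 : K) * ((Pool.Agent.W223.AC.pt (a j)).2 : K))) := by
    rw [eqn_form a j fun k => (X k : K)]
    unfold Pool.Agent.W223.AC.pt
    push_cast
    field_simp
    ring
  have h2 : siz (n := 1) v (fun k => (X k : K)) =
      FinitePlace.mk v (X 1 : K) * max (FinitePlace.mk v ((X 0 : K) / (X 1 : K))) 1 := by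
    have h3 : siz (n := 1) v (fun k => (X k : K)) =
        max (FinitePlace.mk v (X 0 : K)) (FinitePlace.mk v (X 1 : K)) := by
      refine le_antisymm (ciSup_le fun k => ?_) (max_le ?_ ?_)
      · fin_cases k
        · exact le_max_left _ _
        · exact le_max_right _ _
      · exact le_siz (n := 1) v (fun k => (X k : K)) 0
      · exact le_siz (n := 1) v (fun k => (X k : K)) 1
    have h4 : 0 < FinitePlace.mk v (X 1 : K) := FinitePlace.pos_iff.2 hX'
    rw [h3, mul_max_of_nonneg _ _ h4.le, mul_one, map_div₀, mul_div_cancel₀ _ h4.ne']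
  have h5 : 0 < FinitePlace.mk v (X 1 : K) := FinitePlace.pos_iff.2 hX'
  have h6 : FinitePlace.mk v (∑ k, ((eqn K a j k : 𝓞 K) : K) * (X k : K)) =
      FinitePlace.mk v (X 1 : K) * FinitePlace.mk v (((Pool.Agent.W223.AC.pt (a j)).1 : K) -
        (X 0 : K) / (X 1 : K) * ((Pool.Agent.W223.AC.pt (a j)).2 : K)) := by
    rw [h1, ← map_mul]
    exact map_neg_eq_map (FinitePlace.mk v) _
  rw [h6, h2, mul_lt_mul_iff_right₀ h5, lt_max_iff, lt_max_iff, hlt]
  have h7 : v.valuation K (((Pool.Agent.W223.AC.pt (a j)).1 : K) -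
        (X 0 : K) / (X 1 : K) * ((Pool.Agent.W223.AC.pt (a j)).2 : K)) < 1 ↔
      FinitePlace.mk v (((Pool.Agent.W223.AC.pt (a j)).1 : K) -
        (X 0 : K) / (X 1 : K) * ((Pool.Agent.W223.AC.pt (a j)).2 : K)) < 1 := by
    have := hlt (((Pool.Agent.W223.AC.pt (a j)).1 : K) -
        (X 0 : K) / (X 1 : K) * ((Pool.Agent.W223.AC.pt (a j)).2 : K)) 1
    rwa [map_one, map_one] at this
  rw [h7]

theorem lam_zero {b X : Fin (1 + 1) → 𝓞 K} (v : HeightOneSpectrum (𝓞 K))
    (hne : ∑ k, (b k : K) * (X k : K) ≠ 0)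
    (h : ¬ FinitePlace.mk v (∑ k, (b k : K) * (X k : K)) < siz (n := 1) v (fun k => (X k : K))) :
    lam (n := 1) v (fun k => (b k : K)) (fun k => (X k : K)) = 0 := by
  refine le_antisymm ?_ (lam_nonneg v hne)
  unfold lam
  have h1 : 0 < FinitePlace.mk v (∑ k, (b k : K) * (X k : K)) := FinitePlace.pos_iff.2 hne
  refine Real.log_nonpos (div_nonneg (mul_nonneg (siz_nonneg _ _) (siz_nonneg _ _)) h1.le) ?_
  rw [div_le_one h1]
  calc siz v (fun k => (X k : K)) * siz v (fun k => (b k : K)) ≤ siz v (fun k => (X k : K)) * 1 :=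
        mul_le_mul_of_nonneg_left (siz_le_one v b) (siz_nonneg _ _)
    _ ≤ _ := by rw [mul_one]; exact not_lt.1 h

open Classical in
theorem ntr_le_cnt {S : Finset ℕ} {q : ℕ} (a : Fin q → ℚ) (X : Fin (1 + 1) → 𝓞 K) (hX : X 1 ≠ 0)
    (hne : ∀ i, ∑ k, ((eqn K a i k : 𝓞 K) : K) * (X k : K) ≠ 0) :
    Ntr (badT K S a) 1 (fun i k => ((eqn K a i k : 𝓞 K) : K)) (fun k => (X k : K)) ≤
      Pool.Agent.W223.VD.cnt S (fun j => Pool.Agent.W223.AC.pt (a j)) ((X 0 : K) / (X 1 : K)) := by
  have hcast : ∀ i, ∑ k, ((eqn K a i k : 𝓞 K) : K) * (X k : K) =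
      ((∑ k, eqn K a i k * X k : 𝓞 K) : K) := by
    intro i
    simp only [map_sum, map_mul]
  have hne' : ∀ i, ∑ k, eqn K a i k * X k ≠ 0 := by
    intro i h0
    apply hne i
    rw [hcast i, h0]
    exact map_zero (algebraMap (𝓞 K) K)
  have hfin : {v : HeightOneSpectrum (𝓞 K) | ∏ i, ∑ k, eqn K a i k * X k ∈ v.asIdeal}.Finite := by
    have h2 := Ideal.finite_factors (R := 𝓞 K) (I := Ideal.span {∏ i, ∑ k, eqn K a i k * X k})
      (by
        rw [Ne, Ideal.zero_eq_bot, Ideal.span_singleton_eq_bot]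
        exact Finset.prod_ne_zero_iff.2 fun i _ => hne' i)
    refine h2.subset fun v hv => ?_
    rw [Set.mem_ofPred_eq, Ideal.dvd_span_singleton]
    exact hv
  have hout : ∀ v : HeightOneSpectrum (𝓞 K), v ∉ hfin.toFinset → ∀ i,
      ¬ FinitePlace.mk v (∑ k, ((eqn K a i k : 𝓞 K) : K) * (X k : K)) <
        siz (n := 1) v (fun k => (X k : K)) := by
    intro v hv i
    rw [Set.Finite.mem_toFinset] at hv
    have h1 : ∑ k, eqn K a i k * X k ∉ v.asIdeal := by
      intro h2
      exact hv (Ideal.mem_of_dvd _ (Finset.dvd_prod_of_mem (fun i => ∑ k, eqn K a i k * X k)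
        (Finset.mem_univ i)) h2)
    rw [hcast i, norm_eq_one v h1, not_lt]
    exact siz_le_one v X
  unfold Ntr
  rw [Pool.Agent.Q183.AM.finsum_off (badT K S a) _ hfin.toFinset]
  · unfold Pool.Agent.W223.VD.cnt
    rw [finsum_eq_sum_of_support_subset (s := hfin.toFinset)]
    · refine Finset.sum_le_sum fun v _ => ?_
      by_cases hv : v ∈ badT K S a
      · rw [if_neg (by rw [not_not]; exact hv)]
        split_ifs
        · exact (log_Nv_pos v).le
        · exact le_refl _
      · rw [if_pos hv]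
        have hS : ∀ p ∈ S, (p : 𝓞 K) ∉ v.asIdeal := by
          intro p hp hpv
          apply hv
          exact Ideal.mul_mem_right _ _ (Ideal.mem_of_dvd _ (Finset.dvd_prod_of_mem
            (fun p : ℕ => (p : 𝓞 K)) hp) hpv)
        have hdet : ∀ B : Fin (1 + 1) ↪ Fin q,
            (Matrix.of fun i k => eqn K a (B i) k).det ∉ v.asIdeal := by
          intro B hB
          apply hv
          exact Ideal.mul_mem_left _ _ (Ideal.mem_of_dvd _ (Finset.dvd_prod_of_mem
            (fun B : Fin (1 + 1) ↪ Fin q => (Matrix.of fun i k => eqn K a (B i) k).det)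
            (Finset.mem_univ B)) hB)
        by_cases hnear : ∃ j, FinitePlace.mk v (∑ k, ((eqn K a j k : 𝓞 K) : K) * (X k : K)) <
            siz (n := 1) v (fun k => (X k : K))
        · obtain ⟨j, hj⟩ := hnear
          rw [if_pos ⟨hS, j, (near_iff a j v X hX).2 hj⟩]
          rw [Finset.sum_eq_single_of_mem j (Finset.mem_univ j)]
          · refine (min_le_right _ _).trans (le_of_eq ?_)
            rw [Nat.cast_one, one_mul]
          · intro i _ hij
            have h3 : ¬ FinitePlace.mk v (∑ k, ((eqn K a i k : 𝓞 K) : K) * (X k : K)) <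
                siz (n := 1) v (fun k => (X k : K)) := by
              intro h4
              have hinj : Function.Injective (![i, j] : Fin (1 + 1) → Fin q) := by
                intro s t hst
                fin_cases s <;> fin_cases t
                · rfl
                · exact absurd hst hij
                · exact absurd hst.symm hij
                · rfl
              have h5 := siz_le_of_forms (n := 1) v (eqn K a) X ⟨![i, j], hinj⟩
                (hdet ⟨![i, j], hinj⟩) (M := max (FinitePlace.mk v (∑ k, ((eqn K a i k : 𝓞 K) : K) *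
                  (X k : K))) (FinitePlace.mk v (∑ k, ((eqn K a j k : 𝓞 K) : K) * (X k : K))))
                (le_max_of_le_left (apply_nonneg _ _)) (by
                  intro s
                  fin_cases s
                  · show FinitePlace.mk v ((∑ k, eqn K a i k * X k : 𝓞 K) : K) ≤ _
                    rw [← hcast i]
                    exact le_max_left _ _
                  · show FinitePlace.mk v ((∑ k, eqn K a j k * X k : 𝓞 K) : K) ≤ _
                    rw [← hcast j]
                    exact le_max_right _ _)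
              exact absurd h5 (not_le.2 (max_lt h4 hj))
            rw [lam_zero v (hne i) h3]
            exact min_eq_left (mul_nonneg (Nat.cast_nonneg _) (log_Nv_pos v).le)
        · rw [Finset.sum_eq_zero]
          · split_ifs
            · exact (log_Nv_pos v).le
            · exact le_refl _
          · intro i _
            rw [lam_zero v (hne i) fun h => hnear ⟨i, h⟩]
            exact min_eq_left (mul_nonneg (Nat.cast_nonneg _) (log_Nv_pos v).le)
    · intro v hv
      by_contra hcon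
      apply hv
      refine if_neg ?_
      rintro ⟨-, j, hj⟩
      exact hout v hcon j ((near_iff a j v X hX).1 hj)
  · intro v hv
    refine Finset.sum_eq_zero fun i _ => ?_
    rw [lam_zero v (hne i) (hout v hv i)]
    exact min_eq_left (mul_nonneg (Nat.cast_nonneg _) (log_Nv_pos v).le)

end Pool.Agent.Q183.VC
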