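import Pool.Agent.Q183.VC.Master

/-!
The trivial bound of the proximity function by the height.
-/

set_option autoImplicit false

namespace Pool.Agent.Q183.VC

open Polynomial IsDedekindDomain NumberField
open Pool.Agent.W125.CV (fv)

theorem neg_log_sup_le {s : ℕ} (g : Fin (s + 1) → ℝ) (h0 : 0 < g 0) :
    max 0 (-Real.log (⨆ i, g i)) ≤ Real.log (max (g 0)⁻¹ 1) := by
  have hb : BddAbove (Set.range g) := (Set.finite_range g).bddAbove
  have h1 : g 0 ≤ ⨆ i, g i := le_ciSup hb 0
  have h2 : Real.log (g 0) ≤ Real.log (⨆ i, g i) := Real.log_le_log h0 h1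
  have h3 : Real.log (g 0)⁻¹ ≤ Real.log (max (g 0)⁻¹ 1) :=
    Real.log_le_log (inv_pos.2 h0) (le_max_left _ _)
  rw [Real.log_inv] at h3
  exact max_le (Real.log_nonneg (le_max_right _ _)) (by linarith)

open Classical in
theorem local_le {A : Type} [CommRing A] (S : Finset ℕ) {s : ℕ} (z : Fin (s + 1) → A)
    {L : Type} [Field L] [NumberField L] (φ : A →+* L) (hz : φ (z 0) ≠ 0) :
    ∑ w : InfinitePlace L, (w.mult : ℝ) * Pool.Agent.W223.AC.lamI z φ w +
        Pool.Agent.W223.AC.mS S z φ ≤ Real.log (Height.mulHeight₁ (φ (z 0))) := by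
  have hfin := Pool.Agent.W125.CV.max_support_finite (φ (z 0))⁻¹
  rw [← Height.mulHeight₁_inv, Pool.Agent.W125.CV.height_sum (φ (z 0))⁻¹ hfin.toFinset
    fun v hv => (Set.Finite.mem_toFinset _).2 hv]
  refine add_le_add ?_ ?_
  · refine Finset.sum_le_sum fun w _ => mul_le_mul_of_nonneg_left ?_ (Nat.cast_nonneg _)
    rw [map_inv₀]
    exact neg_log_sup_le (fun i => w (φ (z i))) (by
      show 0 < w (φ (z 0))
      exact w.pos_iff.2 hz)
  · have h0 : ∀ v : HeightOneSpectrum (𝓞 L),
        (if ∃ p ∈ S, (p : 𝓞 L) ∈ v.asIdeal then Pool.Agent.W223.AC.lamF z φ v else 0) ≤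
          Real.log (max (fv v (φ (z 0))⁻¹) 1) := by
      intro v
      have h1 : 0 ≤ Real.log (max (fv v (φ (z 0))⁻¹) 1) := Real.log_nonneg (le_max_right _ _)
      split_ifs
      · unfold Pool.Agent.W223.AC.lamF
        rw [map_inv₀]
        exact neg_log_sup_le (fun i => fv v (φ (z i))) ((fv v).pos_iff.2 hz)
      · exact h1
    have h2 : ∀ v : HeightOneSpectrum (𝓞 L), 0 ≤
        (if ∃ p ∈ S, (p : 𝓞 L) ∈ v.asIdeal then Pool.Agent.W223.AC.lamF z φ v else 0) := by
      intro v
      split_ifs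
      · exact Pool.Agent.W223.AC.lamF_nonneg z φ v
      · exact le_refl _
    have h3 : (Function.support fun v : HeightOneSpectrum (𝓞 L) =>
        if ∃ p ∈ S, (p : 𝓞 L) ∈ v.asIdeal then Pool.Agent.W223.AC.lamF z φ v else 0) ⊆
        (hfin.toFinset : Set (HeightOneSpectrum (𝓞 L))) := by
      intro v hv
      rw [Set.Finite.coe_toFinset]
      intro h4
      apply hv
      have h5 := h0 v
      rw [h4, Real.log_one] at h5
      exact le_antisymm h5 (h2 v)
    unfold Pool.Agent.W223.AC.mS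
    rw [finsum_eq_sum_of_support_subset _ h3]
    exact Finset.sum_le_sum fun v _ => h0 v

theorem lamF_finite {A : Type} [CommRing A] {s : ℕ} (z : Fin (s + 1) → A)
    {L : Type} [Field L] [NumberField L] (φ : A →+* L) (hz : φ (z 0) ≠ 0) :
    {v : HeightOneSpectrum (𝓞 L) | Pool.Agent.W223.AC.lamF z φ v ≠ 0}.Finite := by
  refine (Pool.Agent.W125.CV.max_support_finite (φ (z 0))⁻¹).subset fun v hv h => hv ?_
  have h1 : Pool.Agent.W223.AC.lamF z φ v ≤ Real.log (max (fv v (φ (z 0))⁻¹) 1) := by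
    unfold Pool.Agent.W223.AC.lamF
    rw [map_inv₀]
    exact neg_log_sup_le (fun i => fv v (φ (z i))) ((fv v).pos_iff.2 hz)
  rw [h, Real.log_one] at h1
  exact le_antisymm h1 (Pool.Agent.W223.AC.lamF_nonneg z φ v)

/-- the discriminant does not decrease -/
theorem disc_le (K L : Type) [Field K] [NumberField K] [Field L] [NumberField L] [Algebra K L] :
    (Module.finrank K L : ℝ) * Real.log |(discr K : ℝ)| ≤ Real.log |(discr L : ℝ)| := by
  have h := Pool.Agent.W469.CV.REL.t K L 0 ∅ (fun j => j.elim0) 0 (fun j => j.elim0)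
  have h1 : ∀ (F : Type) [Field F] [NumberField F] (x : F),
      Pool.Agent.W223.VD.cnt (K := F) (q := 0) ∅ (fun j => j.elim0) x = 0 := by
    intro F _ _ x
    unfold Pool.Agent.W223.VD.cnt
    refine (finsum_congr fun v => if_neg ?_).trans finsum_zero
    rintro ⟨-, j, -⟩
    exact j.elim0
  rw [h1, h1, add_zero, add_zero] at h
  exact h

theorem W_le {A : Type} [CommRing A] [Algebra ℚ[X] A]
    {q : ℕ} (a : Fin q → ℚ) (u : Fin q → ℕ) (y : ∀ j, Fin (u j + 1) → A)
    (hy0 : ∀ j, y j 0 = Pool.Agent.W223.AC.tt A - algebraMap ℚ[X] A (C (a j))) :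
    ∃ C₂ : ℝ, 0 ≤ C₂ ∧ ∀ (K : Type) [Field K] [NumberField K] (x : K), (∀ j, x ≠ (a j : K)) →
      ∀ (L : Type) [Field L] [NumberField L] [Algebra K L] (φ : A →+* L) (S : Finset ℕ),
        φ (Pool.Agent.W223.AC.tt A) = algebraMap K L x →
        W S u y L φ ≤ q * (Module.finrank K L * Real.log (Height.mulHeight₁ x)) +
          Module.finrank ℚ L * C₂ := by
  classical
  refine ⟨∑ j, (Real.log 2 + Real.log (Height.mulHeight₁ (a j))),
    Finset.sum_nonneg fun j _ => add_nonneg (Real.log_nonneg one_le_two)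
      (Real.log_nonneg (Height.one_le_mulHeight₁ _)), ?_⟩
  intro K _ _ x hx L _ _ _ φ S hφ
  have hz : ∀ j, φ (y j 0) = algebraMap K L x - algebraMap ℚ L (a j) := by
    intro j
    rw [hy0 j, map_sub, hφ]
    congr 1
    have h1 : φ (algebraMap ℚ[X] A (Polynomial.C (a j))) = (a j : L) :=
      eq_ratCast (φ.comp ((algebraMap ℚ[X] A).comp Polynomial.C)) (a j)
    rw [h1]
    rfl
  have hz0 : ∀ j, φ (y j 0) ≠ 0 := by
    intro j h
    rw [hz j, sub_eq_zero] at h
    apply hx j
    apply FaithfulSMul.algebraMap_injective K L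
    rw [h, map_ratCast]
    rfl
  have h1 : ∀ j, ∑ w : InfinitePlace L, (w.mult : ℝ) * Pool.Agent.W223.AC.lamI (y j) φ w +
        Pool.Agent.W223.AC.mS S (y j) φ ≤
      Module.finrank K L * Real.log (Height.mulHeight₁ x) +
        Module.finrank ℚ L * (Real.log 2 + Real.log (Height.mulHeight₁ (a j))) := by
    intro j
    refine (local_le S (y j) φ (hz0 j)).trans ?_
    rw [hz j]
    have h2 := Height.logHeight₁_sub_le (algebraMap K L x) (algebraMap ℚ L (a j))
    rw [Height.logHeight₁_eq_log_mulHeight₁, Height.logHeight₁_eq_log_mulHeight₁,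
      Height.logHeight₁_eq_log_mulHeight₁,
      Pool.Agent.W223.AC.MK.log_height_ext L x, Pool.Agent.W223.AC.MK.log_height_ext L (a j),
      NumberField.totalWeight_eq_finrank] at h2
    linarith
  unfold W
  refine (Finset.sum_le_sum fun j _ => h1 j).trans (le_of_eq ?_)
  rw [Finset.sum_add_distrib, Finset.sum_const, Finset.card_univ, Fintype.card_fin, nsmul_eq_mul,
    Finset.mul_sum]

end Pool.Agent.Q183.VC
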