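import Pool.Agent.Q128.SDF.Mult2

/-!
# Local heights of products of ideals on curves: comparison of two products
-/

set_option autoImplicit false

namespace Pool.Agent.Q183.VC

open IsDedekindDomain NumberField Height Polynomial
open Pool.Agent.W125.CV (fv)
open Pool.Agent.W223.AC (tt psi IntEl)
open Pool.Agent.Q128.SDF
open scoped Pointwise

/-- an element of a product of finitely generated ideals -/
theorem mem_prod_span {A : Type} [CommRing A] {M : Type} [Fintype M] [DecidableEq M] {r : M → ℕ}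
    (G : ∀ m, Fin (r m + 1) → A) {z : A} (hz : z ∈ ∏ m, Ideal.span (Set.range (G m))) :
    ∃ c : (∀ m, Fin (r m + 1)) → A, z = ∑ κ, c κ * ∏ m, G m (κ m) := by
  classical
  rw [Ideal.prod_span] at hz
  have h1 : (∏ m, Set.range (G m)) ⊆ Set.range fun κ : (∀ m, Fin (r m + 1)) => ∏ m, G m (κ m) := by
    intro w hw
    rw [Set.mem_finsetProd] at hw
    obtain ⟨g, hg, rfl⟩ := hw
    choose κ hκ using fun m => hg (i := m) (Finset.mem_univ m)
    exact ⟨κ, Finset.prod_congr rfl fun m _ => hκ m⟩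
  have h2 := Ideal.span_mono h1 hz
  obtain ⟨c, hc⟩ := (Ideal.mem_span_range_iff_exists_fun).1 h2
  exact ⟨c, hc.symm⟩

/-- **Comparison of local heights.** If the products of the `H n (k n)`, one for each `n`, are in the
product of the ideals generated by the `G m`, and the `G m 0` are nonconstant polynomials in the
coordinate, then the sum of the local heights of the `G m` is at most the sum of those of the `H n`,
up to constants. -/
theorem compareP {A : Type} [CommRing A] [Algebra ℚ[X] A] [Module.Finite ℚ[X] A] {M N : Type}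
    [Fintype M] [DecidableEq M] [Fintype N] [DecidableEq N] {r : M → ℕ} {u : N → ℕ}
    (G : ∀ m, Fin (r m + 1) → A) (H : ∀ n, Fin (u n + 1) → A)
    (hG : ∀ m, ∃ h : ℚ[X], 0 < h.natDegree ∧ G m 0 = algebraMap ℚ[X] A h)
    (hprod : ∀ k : ∀ n, Fin (u n + 1), ∏ n, H n (k n) ∈ ∏ m, Ideal.span (Set.range (G m))) :
    ∃ (D : ℕ) (B : ℝ), D ≠ 0 ∧ 0 ≤ B ∧ ∀ (L : Type) [Field L] [NumberField L] (φ : A →+* L),
      (∀ m, ∃ k, φ (G m k) ≠ 0) → (∀ n, ∃ k, φ (H n k) ≠ 0) →
      (∀ v : HeightOneSpectrum (𝓞 L), ∑ m, mL (fun i => fv v (φ (G m i))) ≤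
        ∑ n, mL (fun k => fv v (φ (H n k))) + -Real.log (fv v (D : L))) ∧
      ∀ w : InfinitePlace L, ∑ m, mL (fun i => w (φ (G m i))) ≤
        ∑ n, mL (fun k => w (φ (H n k))) + B := by
  classical
  choose c hc using fun k => mem_prod_span G (hprod k)
  choose h hh hg using hG
  obtain ⟨n₁, e₁, B₁, hn₁, hB₁, hgrow₁⟩ := grow_fin (A := A)
    (ι := (∀ n, Fin (u n + 1)) × (∀ m, Fin (r m + 1))) (fun p => c p.1 p.2)
  obtain ⟨n₂, e₂, B₂, hn₂, hB₂, hgrow₂⟩ := grow_fin (A := A)
    (ι := Σ m, Fin (r m + 1)) (fun p => G p.1 p.2)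
  choose l R hl hR hlarge using fun m => poly_large (h m) (hh m)
  set l' : ℕ := ∏ m, l m with hl'
  set R' : ℝ := 1 + ∑ m, R m with hR'
  have hl'0 : l' ≠ 0 := Finset.prod_ne_zero_iff.2 fun m _ => hl m
  have hR'1 : 1 ≤ R' := by
    have := Finset.sum_nonneg fun m (_ : m ∈ Finset.univ) => zero_le_one.trans (hR m)
    rw [hR']; linarith
  have hRm : ∀ m, R m ≤ R' := by
    intro m
    have := Finset.single_le_sum (fun m _ => zero_le_one.trans (hR m)) (Finset.mem_univ m)
    rw [hR']; linarith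
  set Q : ℝ := (Fintype.card (∀ m, Fin (r m + 1)) : ℝ) * (B₁ * R' ^ e₁) with hQ
  have hcard : (1 : ℝ) ≤ Fintype.card (∀ m, Fin (r m + 1)) := by
    exact_mod_cast Nat.one_le_iff_ne_zero.mpr Fintype.card_ne_zero
  have hQ1 : 1 ≤ Q := by
    have e1 : (1 : ℝ) ≤ R' ^ e₁ := one_le_pow₀ hR'1
    have e3 : (1 : ℝ) ≤ B₁ * R' ^ e₁ := by nlinarith
    rw [hQ]; nlinarith
  have hP1 : 1 ≤ B₂ * R' ^ e₂ := by
    have e1 : (1 : ℝ) ≤ R' ^ e₂ := one_le_pow₀ hR'1
    nlinarith
  refine ⟨(n₂ * l' ^ e₂) ^ Fintype.card M * (n₁ * l' ^ e₁),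
    Fintype.card M * Real.log (B₂ * R' ^ e₂) + Real.log Q,
    mul_ne_zero (pow_ne_zero _ (mul_ne_zero hn₂ (pow_ne_zero _ hl'0)))
      (mul_ne_zero hn₁ (pow_ne_zero _ hl'0)),
    add_nonneg (mul_nonneg (Nat.cast_nonneg _) (Real.log_nonneg hP1)) (Real.log_nonneg hQ1), ?_⟩
  intro L _ _ φ hGne hHne
  obtain ⟨hfin₁, hinf₁⟩ := hgrow₁ L φ
  obtain ⟨hfin₂, hinf₂⟩ := hgrow₂ L φ
  have hx : ∀ m, φ (G m 0) = aeval (φ (tt A)) (h m) := by
    intro m
    rw [hg m]
    have h2 : h m = aeval (X : ℚ[X]) (h m) := by rw [aeval_X_left_apply]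
    conv_lhs => rw [h2]
    have h3 : (φ.comp (algebraMap ℚ[X] A)) (aeval X (h m)) =
        aeval ((φ.comp (algebraMap ℚ[X] A)) X) (h m) := by
      have h4 := Polynomial.aeval_algHom_apply ((φ.comp (algebraMap ℚ[X] A)).toRatAlgHom) X (h m)
      exact h4.symm
    exact h3
  -- the values of the products
  have hval : ∀ k : ∀ n, Fin (u n + 1), ∏ n, φ (H n (k n)) =
      ∑ κ, φ (c k κ) * ∏ m, φ (G m (κ m)) := by
    intro k
    rw [← map_prod, hc k, map_sum]
    exact Finset.sum_congr rfl fun κ _ => by rw [map_mul, map_prod]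
  have hpos : ∀ (m : L → ℝ), (∀ z, z ≠ 0 → 0 < m z) → (∀ j, 0 < ⨆ i, m (φ (G j i))) ∧
      ∀ j, 0 < ⨆ k, m (φ (H j k)) := by
    intro m hm
    constructor
    · intro j
      obtain ⟨i, hi⟩ := hGne j
      exact (hm _ hi).trans_le (le_ciSup (f := fun i => m (φ (G j i)))
        (Set.finite_range _).bddAbove i)
    · intro j
      obtain ⟨k, hk⟩ := hHne j
      exact (hm _ hk).trans_le (le_ciSup (f := fun k => m (φ (H j k)))
        (Set.finite_range _).bddAbove k)
  constructor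
  · intro v
    obtain ⟨pG, pH⟩ := hpos (fun z => fv v z) (fun z hz => (fv v).pos_iff.2 hz)
    have hθ₁ : 0 < fv v ((n₁ * l' ^ e₁ : ℕ) : L) :=
      fv_nat_pos v (mul_ne_zero hn₁ (pow_ne_zero _ hl'0))
    have hθ₂ : 0 < fv v ((n₂ * l' ^ e₂ : ℕ) : L) :=
      fv_nat_pos v (mul_ne_zero hn₂ (pow_ne_zero _ hl'0))
    have hlogD : -Real.log (fv v (((n₂ * l' ^ e₂) ^ Fintype.card M * (n₁ * l' ^ e₁) : ℕ) : L)) =
        Fintype.card M * -Real.log (fv v ((n₂ * l' ^ e₂ : ℕ) : L)) +
          -Real.log (fv v ((n₁ * l' ^ e₁ : ℕ) : L)) := by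
      rw [Nat.cast_mul, Nat.cast_pow, map_mul, map_pow, Real.log_mul (pow_pos hθ₂ _).ne' hθ₁.ne',
        Real.log_pow]
      ring
    rw [hlogD]
    have hl1 : 0 ≤ -Real.log (fv v ((n₁ * l' ^ e₁ : ℕ) : L)) := by
      have := Real.log_nonpos hθ₁.le (fv_nat_le v _)
      linarith
    have hl2 : 0 ≤ -Real.log (fv v ((n₂ * l' ^ e₂ : ℕ) : L)) := by
      have := Real.log_nonpos hθ₂.le (fv_nat_le v _)
      linarith
    have hs : 0 ≤ ∑ j, mL (fun k => fv v (φ (H j k))) := Finset.sum_nonneg fun j _ => mL_nonneg _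
    by_cases hall : ∀ m, mL (fun i => fv v (φ (G m i))) = 0
    · rw [Finset.sum_eq_zero fun m _ => hall m]
      positivity
    push Not at hall
    obtain ⟨m₀, hm₀⟩ := hall
    have hlt : (⨆ i, fv v (φ (G m₀ i))) < 1 := by
      by_contra hcon
      rw [not_lt] at hcon
      apply hm₀
      unfold mL
      rw [max_eq_left]
      have := Real.log_nonneg hcon
      linarith
    have hg0 : fv v (aeval (φ (tt A)) (h m₀)) < 1 := by
      rw [← hx]
      exact (le_ciSup (f := fun l => fv v (φ (G m₀ l))) (Set.finite_range _).bddAbove 0).trans_lt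
        hlt
    have hlx := (hlarge m₀ L (φ (tt A))).1 v hg0
    have hl'le : fv v (l' : L) ≤ fv v (l m₀ : L) := by
      rw [hl', ← Finset.mul_prod_erase _ _ (Finset.mem_univ m₀)]
      push_cast
      rw [map_mul]
      have h3 := fv_nat_le (L := L) v (∏ j ∈ Finset.univ.erase m₀, l j)
      push_cast at h3
      exact mul_le_of_le_one_right (apply_nonneg _ _) h3
    have hmax : fv v (l' : L) * max (fv v (φ (tt A))) 1 ≤ 1 := by
      rw [mul_max_of_nonneg _ _ (apply_nonneg _ _), mul_one]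
      exact max_le ((mul_le_mul_of_nonneg_right hl'le (apply_nonneg _ _)).trans hlx)
        (fv_nat_le v l')
    -- bounded elements
    have bdd : ∀ (n e : ℕ) (z : L), fv v (n : L) * fv v z ≤ max (fv v (φ (tt A))) 1 ^ e →
        fv v (((n * l' ^ e : ℕ) : L) * z) ≤ 1 := by
      intro n e z h2
      have h3 : fv v (((n * l' ^ e : ℕ) : L) * z) = fv v (l' : L) ^ e * (fv v (n : L) * fv v z) := by
        push_cast
        rw [map_mul, map_mul, map_pow]
        ring
      rw [h3]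
      calc fv v (l' : L) ^ e * (fv v (n : L) * fv v z) ≤
            fv v (l' : L) ^ e * max (fv v (φ (tt A))) 1 ^ e :=
            mul_le_mul_of_nonneg_left h2 (by positivity)
        _ = (fv v (l' : L) * max (fv v (φ (tt A))) 1) ^ e := by rw [mul_pow]
        _ ≤ 1 := pow_le_one₀ (by positivity) hmax
    have hcoef : ∀ k κ, fv v (((n₁ * l' ^ e₁ : ℕ) : L) * φ (c k κ)) ≤ 1 := fun k κ =>
      bdd n₁ e₁ _ (hfin₁ v (k, κ))
    have hGb : ∀ m i, fv v (((n₂ * l' ^ e₂ : ℕ) : L) * φ (G m i)) ≤ 1 := fun m i =>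
      bdd n₂ e₂ _ (hfin₂ v ⟨m, i⟩)
    -- the local heights of the `G m`
    have hGm : ∀ m, mL (fun i => fv v (φ (G m i))) ≤ -Real.log (⨆ i, fv v (φ (G m i))) +
        -Real.log (fv v ((n₂ * l' ^ e₂ : ℕ) : L)) := by
      intro m
      obtain ⟨i, hi⟩ := exists_max (fun i => fv v (φ (G m i)))
      have h2 := hGb m i
      rw [map_mul] at h2
      have hi' : fv v (φ (G m i)) = ⨆ i, fv v (φ (G m i)) := hi
      rw [hi'] at h2
      have h3 := Real.log_nonpos (by have := pG m; positivity) h2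
      rw [Real.log_mul hθ₂.ne' (pG m).ne'] at h3
      unfold mL
      exact max_le (by linarith) (by linarith)
    -- the products
    choose kn hkn using fun n => exists_max (fun k => fv v (φ (H n k)))
    have hsum : fv v (((n₁ * l' ^ e₁ : ℕ) : L) * ∑ κ, φ (c kn κ) * ∏ m, φ (G m (κ m))) ≤
        ∏ m, ⨆ i, fv v (φ (G m i)) := by
      rw [Finset.mul_sum]
      obtain ⟨κ₀, -, hκ₀⟩ := Finset.exists_max_image (Finset.univ : Finset (∀ m, Fin (r m + 1)))
        (fun κ => fv v (((n₁ * l' ^ e₁ : ℕ) : L) * (φ (c kn κ) * ∏ m, φ (G m (κ m)))))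
        Finset.univ_nonempty
      have h4 : fv v (∑ κ, ((n₁ * l' ^ e₁ : ℕ) : L) * (φ (c kn κ) * ∏ m, φ (G m (κ m)))) ≤
          fv v (((n₁ * l' ^ e₁ : ℕ) : L) * (φ (c kn κ₀) * ∏ m, φ (G m (κ₀ m)))) := by
        show FinitePlace.mk v _ ≤ FinitePlace.mk v _
        rw [Pool.Agent.Q103.SDV.mk_le]
        apply Valuation.map_sum_le
        intro κ _
        rw [← Pool.Agent.Q103.SDV.mk_le]
        exact hκ₀ κ (Finset.mem_univ _)
      refine h4.trans ?_
      rw [← mul_assoc, map_mul, map_prod]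
      calc fv v (((n₁ * l' ^ e₁ : ℕ) : L) * φ (c kn κ₀)) * ∏ m, fv v (φ (G m (κ₀ m))) ≤
            1 * ∏ m, fv v (φ (G m (κ₀ m))) := mul_le_mul_of_nonneg_right (hcoef kn κ₀)
              (Finset.prod_nonneg fun m _ => apply_nonneg _ _)
        _ = ∏ m, fv v (φ (G m (κ₀ m))) := one_mul _
        _ ≤ ∏ m, ⨆ i, fv v (φ (G m i)) := Finset.prod_le_prod (fun m _ => apply_nonneg _ _)
            fun m _ => le_ciSup (f := fun i => fv v (φ (G m i))) (Set.finite_range _).bddAbove _
    rw [← hval, map_mul, map_prod] at hsum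
    have hkn' : ∀ n, fv v (φ (H n (kn n))) = ⨆ k, fv v (φ (H n k)) := hkn
    rw [Finset.prod_congr rfl fun n _ => hkn' n] at hsum
    have hPH : 0 < ∏ n, ⨆ k, fv v (φ (H n k)) := Finset.prod_pos fun n _ => pH n
    have h5 := Real.log_le_log (by positivity) hsum
    rw [Real.log_mul hθ₁.ne' hPH.ne', Real.log_prod (fun n _ => (pH n).ne'),
      Real.log_prod (fun m _ => (pG m).ne')] at h5
    have h6 : ∑ m, mL (fun i => fv v (φ (G m i))) ≤
        -∑ m, Real.log (⨆ i, fv v (φ (G m i))) +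
          Fintype.card M * -Real.log (fv v ((n₂ * l' ^ e₂ : ℕ) : L)) := by
      refine (Finset.sum_le_sum fun m _ => hGm m).trans (le_of_eq ?_)
      rw [Finset.sum_add_distrib, Finset.sum_neg_distrib, Finset.sum_const, Finset.card_univ,
        nsmul_eq_mul]
    have h7 : -∑ n, Real.log (⨆ k, fv v (φ (H n k))) ≤ ∑ n, mL (fun k => fv v (φ (H n k))) := by
      rw [← Finset.sum_neg_distrib]
      exact Finset.sum_le_sum fun n _ => le_max_right _ _
    linarith
  · intro w
    obtain ⟨pG, pH⟩ := hpos (fun z => w z) (fun z hz => InfinitePlace.pos_iff.2 hz)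
    have hlogP : 0 ≤ Real.log (B₂ * R' ^ e₂) := Real.log_nonneg hP1
    have hlogQ : 0 ≤ Real.log Q := Real.log_nonneg hQ1
    have hs : 0 ≤ ∑ j, mL (fun k => w (φ (H j k))) := Finset.sum_nonneg fun j _ => mL_nonneg _
    by_cases hall : ∀ m, mL (fun i => w (φ (G m i))) = 0
    · rw [Finset.sum_eq_zero fun m _ => hall m]
      positivity
    push Not at hall
    obtain ⟨m₀, hm₀⟩ := hall
    have hlt : (⨆ i, w (φ (G m₀ i))) < 1 := by
      by_contra hcon
      rw [not_lt] at hcon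
      apply hm₀
      unfold mL
      rw [max_eq_left]
      have := Real.log_nonneg hcon
      linarith
    have hg0 : w (aeval (φ (tt A)) (h m₀)) < 1 := by
      rw [← hx]
      exact (le_ciSup (f := fun l => w (φ (G m₀ l))) (Set.finite_range _).bddAbove 0).trans_lt
        hlt
    have hlx : max (w (φ (tt A))) 1 ≤ R' :=
      max_le (((hlarge m₀ L (φ (tt A))).2 w hg0).trans (hRm m₀)) hR'1
    have hcoef : ∀ k κ, w (φ (c k κ)) ≤ B₁ * R' ^ e₁ := by
      intro k κ
      refine (hinf₁ w (k, κ)).trans ?_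
      apply mul_le_mul_of_nonneg_left _ (by linarith)
      exact pow_le_pow_left₀ (by positivity) hlx _
    have hGb : ∀ m i, w (φ (G m i)) ≤ B₂ * R' ^ e₂ := by
      intro m i
      refine (hinf₂ w ⟨m, i⟩).trans ?_
      apply mul_le_mul_of_nonneg_left _ (by linarith)
      exact pow_le_pow_left₀ (by positivity) hlx _
    have hGm : ∀ m, mL (fun i => w (φ (G m i))) ≤ -Real.log (⨆ i, w (φ (G m i))) +
        Real.log (B₂ * R' ^ e₂) := by
      intro m
      obtain ⟨i, hi⟩ := exists_max (fun i => w (φ (G m i)))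
      have h2 := hGb m i
      have hi' : w (φ (G m i)) = ⨆ i, w (φ (G m i)) := hi
      rw [hi'] at h2
      have h3 := Real.log_le_log (pG m) h2
      unfold mL
      exact max_le (by linarith) (by linarith)
    choose kn hkn using fun n => exists_max (fun k => w (φ (H n k)))
    have hsum : w (∑ κ, φ (c kn κ) * ∏ m, φ (G m (κ m))) ≤ Q * ∏ m, ⨆ i, w (φ (G m i)) := by
      calc w (∑ κ, φ (c kn κ) * ∏ m, φ (G m (κ m))) ≤
            ∑ κ, w (φ (c kn κ) * ∏ m, φ (G m (κ m))) := w.1.sum_le _ _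
        _ ≤ ∑ _κ : (∀ m, Fin (r m + 1)), (B₁ * R' ^ e₁) * ∏ m, ⨆ i, w (φ (G m i)) := by
            apply Finset.sum_le_sum
            intro κ _
            rw [map_mul, map_prod]
            apply mul_le_mul (hcoef kn κ) _ (Finset.prod_nonneg fun m _ => apply_nonneg _ _)
              (by positivity)
            exact Finset.prod_le_prod (fun m _ => apply_nonneg _ _)
              fun m _ => le_ciSup (f := fun i => w (φ (G m i))) (Set.finite_range _).bddAbove _
        _ = Q * ∏ m, ⨆ i, w (φ (G m i)) := by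
            rw [Finset.sum_const, Finset.card_univ, nsmul_eq_mul, hQ]
            ring
    rw [← hval, map_prod] at hsum
    have hkn' : ∀ n, w (φ (H n (kn n))) = ⨆ k, w (φ (H n k)) := hkn
    rw [Finset.prod_congr rfl fun n _ => hkn' n] at hsum
    have hPH : 0 < ∏ n, ⨆ k, w (φ (H n k)) := Finset.prod_pos fun n _ => pH n
    have hPG : 0 < ∏ m, ⨆ i, w (φ (G m i)) := Finset.prod_pos fun m _ => pG m
    have hQ0 : 0 < Q := by linarith
    have h5 := Real.log_le_log hPH hsum
    rw [Real.log_mul hQ0.ne' hPG.ne', Real.log_prod (fun n _ => (pH n).ne'),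
      Real.log_prod (fun m _ => (pG m).ne')] at h5
    have h6 : ∑ m, mL (fun i => w (φ (G m i))) ≤
        -∑ m, Real.log (⨆ i, w (φ (G m i))) + Fintype.card M * Real.log (B₂ * R' ^ e₂) := by
      refine (Finset.sum_le_sum fun m _ => hGm m).trans (le_of_eq ?_)
      rw [Finset.sum_add_distrib, Finset.sum_neg_distrib, Finset.sum_const, Finset.card_univ,
        nsmul_eq_mul]
    have h7 : -∑ n, Real.log (⨆ k, w (φ (H n k))) ≤ ∑ n, mL (fun k => w (φ (H n k))) := by
      rw [← Finset.sum_neg_distrib]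
      exact Finset.sum_le_sum fun n _ => le_max_right _ _
    linarith

end Pool.Agent.Q183.VC
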