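import Pool.Agent.Q183.VC.Joint
import Pool.Agent.Q183.VC.Cnt

/-!
The truncated inequality for points of products of lines and the sums of the fibres over rational
points of the factors.
-/

set_option autoImplicit false

namespace Pool.Agent.Q183.VC

open IsDedekindDomain NumberField Height
open Pool.Agent.Q183.AM Pool.Agent.Q183.AR
open Pool.Agent.W223.CV Pool.Agent.W223.AC

variable {K : Type} [Field K] [NumberField K] {Λ : Type} [Fintype Λ] {J : Λ → Type}
  [∀ i, Fintype (J i)] {q : Λ → ℕ}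

/-- the inequality for the product of the lines -/
def PIneq (S : Finset ℕ) (a : ∀ i, Fin (q i) → ℚ) (g : ∀ i, J i → ℕ → 𝓞 K)
    (e : ∀ i, Fin (q i) → J i → ℕ) (X : Λ → Fin 2 → ℕ → 𝓞 K) (C : ℝ) (s : ℕ) : Prop :=
  ∀ 𝔞 𝔟 : Ideal (𝓞 K), Ideal.span {∏ i, ∏ j ∈ hun (e i), g i j s} = 𝔞 * 𝔟 → Squarefree 𝔞 →
    IsCoprime 𝔞 𝔟 →
    ∑ i, ((q i : ℝ) - 2) * logHeight (fun k => (X i k s : K)) ≤
      cc S (fun v => ∃ i ∈ (Finset.univ : Finset Λ),
        NearA (a i) ((X i 0 s : K) / (X i 1 s : K)) v) +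
      Real.log (Ideal.absNorm 𝔟) + Real.log (max C 1)

theorem pineq_mono (S : Finset ℕ) (a : ∀ i, Fin (q i) → ℚ) (g : ∀ i, J i → ℕ → 𝓞 K)
    (e : ∀ i, Fin (q i) → J i → ℕ) (X : Λ → Fin 2 → ℕ → 𝓞 K) : MonoC (PIneq S a g e X) := by
  intro C C' s hCC h 𝔞 𝔟 h4 h5 h6
  have h7 : Real.log (max C 1) ≤ Real.log (max C' 1) :=
    Real.log_le_log (lt_of_lt_of_le one_pos (le_max_right _ _)) (max_le_max hCC (le_refl _))
  exact (h 𝔞 𝔟 h4 h5 h6).trans (by linarith)

theorem mem_hun {I J : Type} [Fintype I] [Fintype J] {e : I → J → ℕ} {j : J} (h : j ∈ hun e) :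
    ∃ i i', e i j ≠ e i' j := (Finset.mem_filter.1 h).2

/-- at a prime which divides exactly one base, once, the point is near the divisor -/
theorem near_of_rel {q : ℕ} (a : Fin q → ℚ) (v : HeightOneSpectrum (𝓞 K)) (x : Fin 2 → 𝓞 K)
    (hx1 : x 1 ≠ 0) (h : rel v (eqn K a) x < 1) : NearA a ((x 0 : K) / (x 1 : K)) v := by
  by_contra hcon
  apply not_le.2 h
  have hs : 0 < siz (n := 1) v (fun k => (x k : K)) :=
    lt_of_lt_of_le (FinitePlace.pos_iff.2 (RingOfIntegers.coe_ne_zero_iff.mpr hx1))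
      (le_siz (n := 1) v (fun k => (x k : K)) 1)
  unfold rel
  have h1 : ∀ j, 1 ≤ FinitePlace.mk v ((eqn K a j 0 * x 0 + eqn K a j 1 * x 1 : 𝓞 K) : K) /
      siz (n := 1) v (fun k => (x k : K)) := by
    intro j
    rw [one_le_div hs]
    by_contra h2
    rw [not_le] at h2
    apply hcon
    refine ⟨j, Finset.mem_univ j, ?_⟩
    refine (near_iff a j v x hx1).2 ?_
    have h3 : (∑ k, ((eqn K a j k : 𝓞 K) : K) * (x k : K)) =
        ((eqn K a j 0 * x 0 + eqn K a j 1 * x 1 : 𝓞 K) : K) := by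
      rw [Fin.sum_univ_two]
      simp only [map_add, map_mul]
    rw [h3]
    exact h2
  calc (1 : ℝ) = ∏ _j : Fin q, (1 : ℝ) := by rw [Finset.prod_const_one]
    _ ≤ _ := Finset.prod_le_prod (fun _ _ => zero_le_one) fun j _ => h1 j

open Classical in
theorem jgrid (𝓜 : Mode) (g : ∀ i, J i → ℕ → 𝓞 K)
    (hg : ∀ i j, ∃ E : LinearRecurrence (𝓞 K), E.IsSolution (g i j))
    (X : Λ → Fin 2 → ℕ → 𝓞 K) (hX : ∀ i k, ∃ E : LinearRecurrence (𝓞 K), E.IsSolution (X i k))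
    (a : ∀ i, Fin (q i) → ℚ) (ha : ∀ i, Function.Injective (a i))
    (κ μ : ∀ i, Fin (q i) → 𝓞 K) (hμ : ∀ i j, μ i j ≠ 0) (e : ∀ i, Fin (q i) → J i → ℕ)
    (hL : ∀ i j t, eqn K (a i) j 0 * X i 0 t + eqn K (a i) j 1 * X i 1 t =
      hval (κ i) (μ i) (g i) (e i) j t) (S : Finset ℕ) (hS : ∀ p ∈ S, p ≠ 0) :
    𝓜.A fun C s => (∀ i j, hval (κ i) (μ i) (g i) (e i) j s ≠ 0) → (∀ i, X i 1 s ≠ 0) →
      PIneq S a g e X C s := by
  have mono : MonoC fun C s => (∀ i j, hval (κ i) (μ i) (g i) (e i) j s ≠ 0) →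
      (∀ i, X i 1 s ≠ 0) → PIneq S a g e X C s :=
    fun C C' s hCC h1 h2 h3 => pineq_mono S a g e X C C' s hCC (h1 h2 h3)
  by_cases hκ : ∀ i j, κ i j ≠ 0
  swap
  · refine 𝓜.large 1 0 mono fun s _ h1 _ => absurd (fun i j h0 => h1 i j ?_) hκ
    unfold hval
    rw [h0, zero_mul, zero_mul]
  have hbad : ∀ i, bad (n := 1) (eqn K (a i)) (κ i) (μ i) ≠ 0 := fun i =>
    bad_ne (fun B => eqn_det (a i) (ha i) B) (hκ i) (hμ i)
  have hS0 : ((∏ p ∈ S, p : ℕ) : 𝓞 K) ≠ 0 := by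
    exact_mod_cast Finset.prod_ne_zero_iff.2 hS
  have hb0 : ((∏ p ∈ S, p : ℕ) : 𝓞 K) * ∏ i, bad (n := 1) (eqn K (a i)) (κ i) (μ i) ≠ 0 :=
    mul_ne_zero hS0 (Finset.prod_ne_zero_iff.2 fun i _ => hbad i)
  set Bd : Finset (HeightOneSpectrum (𝓞 K)) := (finite_dvd hb0).toFinset with hBd
  set B : ℝ := ∑ v ∈ Bd, Real.log (Ideal.absNorm v.asIdeal) with hB
  have hB0 : 0 ≤ B := Finset.sum_nonneg fun v _ => (log_Nv_pos v).le
  have hadet : ∀ i, ∀ j j' : Fin (q i), j ≠ j' →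
      eqn K (a i) j 0 * eqn K (a i) j' 1 ≠ eqn K (a i) j 1 * eqn K (a i) j' 0 := by
    intro i j j' hjj
    have hinj : Function.Injective (![j, j'] : Fin (1 + 1) → Fin (q i)) := by
      intro s t hst
      fin_cases s <;> fin_cases t
      · rfl
      · exact absurd hst hjj
      · exact absurd hst.symm hjj
      · rfl
    have h1 := eqn_det (K := K) (a i) (ha i) ⟨![j, j'], hinj⟩
    rw [Matrix.det_fin_two] at h1
    exact sub_ne_zero.1 h1
  have h1 := fun i => line 𝓜 (g i) (hg i) (X i) (hX i) (eqn K (a i)) (hadet i) (κ i) (μ i) (hμ i)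
    (e i) (hL i)
  have m1 : ∀ i, MonoC fun C s => (∀ j, hval (κ i) (μ i) (g i) (e i) j s ≠ 0) →
      ((Fintype.card (Fin (q i)) : ℝ) - 2) * logHeight (fun k => (X i k s : K)) ≤
        ∑ j ∈ hun (e i), Real.log |((Algebra.norm ℚ (g i j s : K) : ℚ) : ℝ)| +
          Real.log (max C 1) := by
    intro i C C' s hCC h1 h2
    have h7 : Real.log (max C 1) ≤ Real.log (max C' 1) :=
      Real.log_le_log (lt_of_lt_of_le one_pos (le_max_right _ _)) (max_le_max hCC (le_refl _))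
    have := h1 h2
    linarith
  refine 𝓜.imp (𝓜.all h1 m1) (fun C => Real.exp B * C ^ Fintype.card Λ) 0
    ((PolyB.const _).mul (PolyB.id.pow (fun C hC => by linarith) _)
      (fun C hC => pow_nonneg (by linarith) _)) mono fun C s hC _ h3 hne hX1 => ?_
  intro 𝔞 𝔟 hab hsq hcop
  have hC0 : 0 < C := by linarith
  have hgne : ∀ i, ∀ j ∈ hun (e i), g i j s ≠ 0 := by
    intro i j hj h0
    obtain ⟨l, l', hii⟩ := mem_hun hj
    have h1 : ∀ l, e i l j = 0 := by
      intro l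
      by_contra h2
      apply hne i l
      unfold hval
      rw [Finset.prod_eq_zero (Finset.mem_univ j) (by rw [h0, zero_pow h2]), mul_zero]
    exact hii ((h1 l).trans (h1 l').symm)
  have hLx : ∀ i j, eqn K (a i) j 0 * X i 0 s + eqn K (a i) j 1 * X i 1 s =
      hval (κ i) (μ i) (g i) (e i) j s := fun i j => hL i j s
  -- the points are different from the `a_j`
  have hxa : ∀ i j, (X i 0 s : K) / (X i 1 s : K) ≠ (a i j : K) := by
    intro i j h0
    apply hne i j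
    rw [← hLx i j]
    have h2 : (X i 1 s : K) ≠ 0 := RingOfIntegers.coe_ne_zero_iff.mpr (hX1 i)
    have h3 : ((a i j).den : K) ≠ 0 := by exact_mod_cast (a i j).den_nz
    rw [Rat.cast_def, div_eq_div_iff h2 h3] at h0
    have h4 := eqn_form (K := K) (a i) j fun k => (X i k s : K)
    rw [Fin.sum_univ_two] at h4
    have h5 : ((eqn K (a i) j 0 * X i 0 s + eqn K (a i) j 1 * X i 1 s : 𝓞 K) : K) = 0 := by
      have h6 : ((eqn K (a i) j 0 * X i 0 s + eqn K (a i) j 1 * X i 1 s : 𝓞 K) : K) =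
          ((eqn K (a i) j 0 : 𝓞 K) : K) * (X i 0 s : K) +
            ((eqn K (a i) j 1 : 𝓞 K) : K) * (X i 1 s : K) := by
        simp only [map_add, map_mul]
      rw [h6, h4]
      linear_combination h0
    exact RingOfIntegers.coe_eq_zero_iff.1 h5
  set Q : HeightOneSpectrum (𝓞 K) → Prop := fun v => ∃ i ∈ (Finset.univ : Finset Λ),
    NearA (a i) ((X i 0 s : K) / (X i 1 s : K)) v with hQ
  have hQf : {v | Q v}.Finite := by
    refine (Set.finite_iUnion fun i =>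
      nearA_finite (a i) ((X i 0 s : K) / (X i 1 s : K)) (hxa i)).subset ?_
    rintro v ⟨i, -, hv⟩
    exact Set.mem_iUnion.mpr ⟨i, hv⟩
  have h6 := glob (Finset.univ.sigma fun i => hun (e i)) (fun p : (i : Λ) × J i => g p.1 p.2 s)
    (by
      rintro ⟨i, j⟩ hj
      exact hgne i j (Finset.mem_sigma.1 hj).2) (fun _ => 1) 1 (fun _ _ => le_refl 1) Bd
    (ct S Q) (ct_nonneg S Q) (ct_support S hQf) (by
      rintro v hv ⟨i, j⟩ hj0 hc h0
      have hvb : ((∏ p ∈ S, p : ℕ) : 𝓞 K) * ∏ i, bad (n := 1) (eqn K (a i)) (κ i) (μ i) ∉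
          v.asIdeal := fun h => hv ((finite_dvd hb0).mem_toFinset.2 h)
      have hvS : ∀ p ∈ S, (p : 𝓞 K) ∉ v.asIdeal := by
        intro p hp hpv
        apply hvb
        refine Ideal.mul_mem_right _ _ ?_
        rw [Nat.cast_prod]
        exact Ideal.mem_of_dvd _ (Finset.dvd_prod_of_mem (fun p : ℕ => (p : 𝓞 K)) hp) hpv
      have hvi : bad (n := 1) (eqn K (a i)) (κ i) (μ i) ∉ v.asIdeal := by
        intro h
        apply hvb
        refine Ideal.mul_mem_left _ _ ?_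
        exact Ideal.mem_of_dvd _ (Finset.dvd_prod_of_mem
          (fun i => bad (n := 1) (eqn K (a i)) (κ i) (μ i)) (Finset.mem_univ i)) h
      have hNv1 := one_lt_Nv v
      have h7 := rel_le v (eqn K (a i)) (κ i) (μ i) hvi (x := fun k => X i k s)
        (fun j => hLx i j) (hne i) j hc (Finset.mem_sigma.1 hj0).2 fun j' hj' hjj =>
          h0 ⟨i, j'⟩ (Finset.mem_sigma.2 ⟨Finset.mem_univ i, hj'⟩) fun h => by
            rw [Sigma.mk.injEq] at h
            exact hjj (eq_of_heq h.2)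
      have h8 : rel v (eqn K (a i)) (fun k => X i k s) < 1 :=
        lt_of_le_of_lt h7 (inv_lt_one_of_one_lt₀ hNv1)
      have h9 : NearA (a i) ((X i 0 s : K) / (X i 1 s : K)) v :=
        near_of_rel (a i) v (fun k => X i k s) (hX1 i) h8
      rw [Nat.cast_one, one_mul, ct_pos ⟨hvS, i, Finset.mem_univ i, h9⟩]) 𝔞 𝔟 (by
      rw [Finset.prod_sigma]
      exact hab) hsq hcop
  rw [Finset.sum_sigma] at h6
  simp only [Nat.cast_one, one_mul] at h6
  have h7 : Real.log (max (Real.exp B * C ^ Fintype.card Λ) 1) =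
      B + Fintype.card Λ * Real.log C := by
    have h1e : 1 ≤ Real.exp B * C ^ Fintype.card Λ :=
      one_le_mul_of_one_le_of_one_le (Real.one_le_exp hB0) (one_le_pow₀ hC)
    rw [max_eq_left h1e, Real.log_mul (Real.exp_pos _).ne' (pow_pos hC0 _).ne', Real.log_exp,
      Real.log_pow]
  have h8 := Finset.sum_le_sum fun i (_ : i ∈ (Finset.univ : Finset Λ)) => h3 i (hne i)
  rw [max_eq_left hC, Finset.sum_add_distrib, Finset.sum_const, Finset.card_univ,
    nsmul_eq_mul] at h8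
  simp only [Fintype.card_fin] at h8
  have h9 : cc S Q = ∑ᶠ v, ct S Q v := rfl
  rw [h7, h9]
  linarith

end Pool.Agent.Q183.VC
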