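import Pool.Agent.Q183.VC.Star
import Pool.Agent.Q183.VC.Rel2

/-!
Products of curves: the proximity functions, the primes near the branch points and the logarithmic
discriminant.
-/

set_option autoImplicit false

namespace Pool.Agent.Q183.VC

open Polynomial IsDedekindDomain NumberField
open Pool.Agent.W223.CV Pool.Agent.W223.AC

section cc

variable {L : Type} [Field L] [NumberField L]

theorem cc_union (S T : Finset ℕ) (Q : HeightOneSpectrum (𝓞 L) → Prop) :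
    cc (S ∪ T) Q = cc S fun v => (∀ p ∈ T, (p : 𝓞 L) ∉ v.asIdeal) ∧ Q v := by
  unfold cc
  refine finsum_congr fun v => ?_
  by_cases h : (∀ p ∈ S ∪ T, (p : 𝓞 L) ∉ v.asIdeal) ∧ Q v
  · rw [ct_pos h, ct_pos]
    exact ⟨fun p hp => h.1 p (Finset.mem_union_left _ hp),
      fun p hp => h.1 p (Finset.mem_union_right _ hp), h.2⟩
  · rw [ct_neg h, ct_neg]
    rintro ⟨h1, h2, h3⟩
    refine h ⟨fun p hp => ?_, h3⟩
    rcases Finset.mem_union.1 hp with h4 | h4
    · exact h1 p h4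
    · exact h2 p h4

theorem cc_sum (S : Finset ℕ) (Q : HeightOneSpectrum (𝓞 L) → Prop)
    (hf : {v | (∀ p ∈ S, (p : 𝓞 L) ∉ v.asIdeal) ∧ Q v}.Finite) :
    cc S Q = ∑ v ∈ hf.toFinset, Real.log (Ideal.absNorm v.asIdeal) := by
  unfold cc
  rw [finsum_eq_sum_of_support_subset (s := hf.toFinset)]
  · exact Finset.sum_congr rfl fun v hv => ct_pos (hf.mem_toFinset.1 hv)
  · intro v hv
    rw [Set.Finite.coe_toFinset]
    by_contra h
    exact hv (ct_neg h)

theorem nearA_finite {q : ℕ} (a : Fin q → ℚ) (x : L) (hx : ∀ j, x ≠ (a j : L)) :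
    {w : HeightOneSpectrum (𝓞 L) | NearA a x w}.Finite := by
  have hlin : ∀ j, lin (pt (a j)) x ≠ 0 := by
    intro j h
    unfold lin pt at h
    have h11 : ((a j : ℚ) : L) = (((a j).num : ℤ) : L) / (((a j).den : ℤ) : L) := by
      have := Rat.cast_def (K := L) (a j)
      push_cast
      exact this
    have h12 : (((a j).den : ℤ) : L) ≠ 0 := by exact_mod_cast (a j).den_nz
    apply hx j
    rw [h11, eq_div_iff h12]
    exact (sub_eq_zero.mp h).symm
  refine (Set.finite_iUnion fun j => Pool.Agent.W223.CV.near_finite _ _ (hlin j)).subset ?_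
  rintro v ⟨j, -, hv⟩
  exact Set.mem_iUnion.mpr ⟨j, hv⟩

end cc

theorem nearA_iff {k L : Type} [Field k] [NumberField k] [Field L] [NumberField L] [Algebra k L]
    {q : ℕ} (S : Finset ℕ) (a : Fin q → ℚ) (x : k)
    (v : HeightOneSpectrum (𝓞 k)) (w : HeightOneSpectrum (𝓞 L)) (h : w.asIdeal.LiesOver v.asIdeal)
    (hv : (∀ p ∈ S, (p : 𝓞 k) ∉ v.asIdeal) ∧ NearA a x v) :
    (∀ p ∈ S, (p : 𝓞 L) ∉ w.asIdeal) ∧ NearA a (algebraMap k L x) w := by
  have h1 := Pool.Agent.W469.CV.REL.cnd_iff (L := L) S (fun j => pt (a j)) x v w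
  have h2 : Pool.Agent.W469.CV.REL.Cnd S (fun j => pt (a j)) x v := by
    obtain ⟨h3, j, -, h4⟩ := hv
    exact ⟨h3, j, h4⟩
  obtain ⟨h3, j, h4⟩ := h1.2 h2
  exact ⟨h3, j, Finset.mem_univ j, h4⟩

open Classical in
theorem joint (K : Type) [Field K] [NumberField K] {Λ : Type} [Fintype Λ] (A : Λ → Type)
    [∀ i, CommRing (A i)] [∀ i, IsDedekindDomain (A i)]
    [∀ i, Algebra ℚ (A i)] [∀ i, Algebra ℚ[X] (A i)]
    [∀ i, IsScalarTower ℚ ℚ[X] (A i)] [∀ i, Module.Finite ℚ[X] (A i)]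
    [∀ i, FaithfulSMul ℚ[X] (A i)]
    {q : Λ → ℕ} (hq : ∀ i, 0 < q i) (a : ∀ i, Fin (q i) → ℚ)
    (u : ∀ i, Fin (q i) → ℕ) (y : ∀ i j, Fin (u i j + 1) → A i)
    (hy0 : ∀ i j, y i j 0 = tt (A i) - algebraMap ℚ[X] (A i) (C (a i j)))
    (hyr : ∀ i j l, y i j l ∈ (Ideal.span {tt (A i) - algebraMap ℚ[X] (A i) (C (a i j))}).radical)
    {κ : ℝ} (hκ : 0 < κ) :
    ∃ (M : ℕ) (C₁ : ℝ), M ≠ 0 ∧ 0 ≤ C₁ ∧
      ∀ (x : Λ → K), (∀ i j, x i ≠ (a i j : K)) →
      ∀ (L : Type) [Field L] [NumberField L] [Algebra K L] (φ : ∀ i, A i →+* L) (S : Finset ℕ),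
        (∀ i, φ i (tt (A i)) = algebraMap K L (x i)) → (∀ p ∈ S, p.Prime) →
        ∑ i, W S (u i) (y i) L (φ i) +
          Module.finrank K L * cc M.primeFactors (fun v => ∃ i ∈ (Finset.univ : Finset Λ),
            NearA (a i) (x i) v) ≤
        Real.log |(discr L : ℝ)| - Module.finrank K L * Real.log |(discr K : ℝ)| +
          Module.finrank ℚ L * ∑ p ∈ S, Real.log p +
          ∑ i, ((∑ j, (Module.finrank ℚ (A i ⧸ Ideal.span (Set.range (y i j))) : ℝ)) /
            Module.finrank ℚ[X] (A i) + κ) *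
              (Module.finrank K L * Real.log (Height.mulHeight₁ (x i))) +
          Module.finrank ℚ L * C₁ := by
  have hst := fun i => star K (hq i) (a i) (u i) (y i) (hy0 i) (hyr i) hκ
  choose M₁ C₁ hM₁ hC₁ hst using hst
  have hM0 : ∏ i, M₁ i ≠ 0 := Finset.prod_ne_zero_iff.2 fun i _ => hM₁ i
  refine ⟨∏ i, M₁ i, ∑ i, C₁ i, hM0, Finset.sum_nonneg fun i _ => hC₁ i, ?_⟩
  intro x hx L _ _ _ φ S hφ hS
  obtain ⟨T, hT⟩ : ∃ T, T = (∏ i, M₁ i).primeFactors := ⟨_, rfl⟩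
  rw [← hT]
  have hxL : ∀ i j, algebraMap K L (x i) ≠ (a i j : L) := by
    intro i j h
    apply hx i j
    apply FaithfulSMul.algebraMap_injective K L
    rw [h, map_ratCast]
  -- the two sets of primes
  have hfK : {v : HeightOneSpectrum (𝓞 K) | (∀ p ∈ T, (p : 𝓞 K) ∉ v.asIdeal) ∧
      ∃ i ∈ (Finset.univ : Finset Λ), NearA (a i) (x i) v}.Finite := by
    refine (Set.finite_iUnion fun i => nearA_finite (a i) (x i) (hx i)).subset ?_
    rintro v ⟨-, i, -, hv⟩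
    exact Set.mem_iUnion.mpr ⟨i, hv⟩
  have hfL' : {w : HeightOneSpectrum (𝓞 L) | ∃ i ∈ (Finset.univ : Finset Λ),
      NearA (a i) (algebraMap K L (x i)) w}.Finite := by
    refine (Set.finite_iUnion fun i =>
      nearA_finite (a i) (algebraMap K L (x i)) (hxL i)).subset ?_
    rintro v ⟨i, -, hv⟩
    exact Set.mem_iUnion.mpr ⟨i, hv⟩
  have hfL : {w : HeightOneSpectrum (𝓞 L) | (∀ p ∈ T, (p : 𝓞 L) ∉ w.asIdeal) ∧
      ∃ i ∈ (Finset.univ : Finset Λ), NearA (a i) (algebraMap K L (x i)) w}.Finite :=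
    hfL'.subset fun w hw => hw.2
  have h1 := rel2 (k := K) (L := L) hfK.toFinset hfL.toFinset (by
    intro v hv w hw
    rw [Set.Finite.mem_toFinset] at hv ⊢
    obtain ⟨h2, i, hi, h3⟩ := hv
    obtain ⟨h4, h5⟩ := nearA_iff (L := L) T (a i) (x i) v w hw ⟨h2, h3⟩
    exact ⟨h4, i, hi, h5⟩)
  rw [← cc_sum T _ hfK, ← cc_sum T _ hfL] at h1
  -- outside `S`
  have h2 : cc T (fun w : HeightOneSpectrum (𝓞 L) => ∃ i ∈ (Finset.univ : Finset Λ),
      NearA (a i) (algebraMap K L (x i)) w) ≤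
      cc (S ∪ T) (fun w : HeightOneSpectrum (𝓞 L) => ∃ i ∈ (Finset.univ : Finset Λ),
        NearA (a i) (algebraMap K L (x i)) w) +
        Module.finrank ℚ L * ∑ p ∈ S, Real.log p := by
    have e1 := cc_union ∅ T (fun w : HeightOneSpectrum (𝓞 L) => ∃ i ∈ (Finset.univ : Finset Λ),
      NearA (a i) (algebraMap K L (x i)) w)
    rw [Finset.empty_union] at e1
    rw [e1, cc_union S T]
    exact cc_outside Pool.Agent.W803.AC.t S hS _ hfL
  have h3 : cc (S ∪ T) (fun w : HeightOneSpectrum (𝓞 L) => ∃ i ∈ (Finset.univ : Finset Λ),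
        NearA (a i) (algebraMap K L (x i)) w) ≤
      ∑ i, cc (S ∪ (M₁ i).primeFactors) (NearA (a i) (algebraMap K L (x i))) := by
    refine (cc_exists (S ∪ T) Finset.univ (fun i (w : HeightOneSpectrum (𝓞 L)) =>
      NearA (a i) (algebraMap K L (x i)) w)
      fun i => nearA_finite (a i) (algebraMap K L (x i)) (hxL i)).trans ?_
    refine Finset.sum_le_sum fun i _ => cc_mono ?_
      (nearA_finite (a i) (algebraMap K L (x i)) (hxL i)) fun w _ h => h
    refine Finset.union_subset_union_right ?_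
    rw [hT]
    exact Nat.primeFactors_mono (Finset.dvd_prod_of_mem M₁ (Finset.mem_univ i)) hM0
  have h4 := Finset.sum_le_sum fun i (_ : i ∈ Finset.univ) => hst i (x i) (hx i) L (φ i) S (hφ i)
  rw [Finset.sum_add_distrib, Finset.sum_add_distrib, ← Finset.mul_sum] at h4
  rw [mul_add] at h1
  linarith

end Pool.Agent.Q183.VC
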