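import Pool.Agent.Q183.VC.Star2

/-!
Products of curves: the truncated counting functions of reduced divisors over the branch points and the
logarithmic discriminant.
-/

set_option autoImplicit false

namespace Pool.Agent.Q183.VC

open Polynomial IsDedekindDomain NumberField
open Pool.Agent.W223.CV Pool.Agent.W223.AC

theorem cc_le_lamF {A : Type} [CommRing A] [Algebra ℚ[X] A] {s : ℕ}
    (z : Fin (s + 1) → A) {L : Type} [Field L] [NumberField L] (φ : A →+* L) (hz : φ (z 0) ≠ 0) :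
    cc ∅ (fun v : HeightOneSpectrum (𝓞 L) => NearP z φ v) ≤
      (∑ᶠ v : HeightOneSpectrum (𝓞 L), lamF z φ v) +
        ∑ w : InfinitePlace L, (w.mult : ℝ) * lamI z φ w := by
  classical
  have h1 := split_prox z φ ∅ hz (lamF_finite z φ hz)
  have h2 : 0 ≤ mS ∅ z φ := by
    unfold mS
    refine finsum_nonneg fun v => ?_
    split_ifs
    · exact lamF_nonneg z φ v
    · exact le_refl _
  have h3 : 0 ≤ ∑ w : InfinitePlace L, (w.mult : ℝ) * lamI z φ w :=
    Finset.sum_nonneg fun w _ => mul_nonneg (Nat.cast_nonneg _) (lamI_nonneg z φ w)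
  linarith

open Classical in
theorem joint2 (K : Type) [Field K] [NumberField K] {Λ : Type} [Fintype Λ] (A : Λ → Type)
    [∀ i, CommRing (A i)] [∀ i, IsDedekindDomain (A i)]
    [∀ i, Algebra ℚ (A i)] [∀ i, Algebra ℚ[X] (A i)]
    [∀ i, IsScalarTower ℚ ℚ[X] (A i)] [∀ i, Module.Finite ℚ[X] (A i)]
    [∀ i, FaithfulSMul ℚ[X] (A i)]
    {q r : Λ → ℕ} (a : ∀ i, Fin (q i) → ℚ) (b : ∀ i, Fin (r i) → Fin (q i))
    (u : ∀ i, Fin (r i) → ℕ) (z : ∀ i l, Fin (u i l + 1) → A i)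
    (hz : ∀ i l, z i l 0 = tt (A i) - algebraMap ℚ[X] (A i) (C (a i (b i l))))
    (hcov : ∀ i, ∀ k : Fin (q i), ∏ l with b i l = k, Ideal.span (Set.range (z i l)) ≤
      (Ideal.span {tt (A i) - algebraMap ℚ[X] (A i) (C (a i k))}).radical)
    {κ : ℝ} (hκ : 0 < κ) :
    ∃ (M : ℕ) (C₁ : ℝ), M ≠ 0 ∧ 0 ≤ C₁ ∧
      ∀ (x : Λ → K), (∀ i j, x i ≠ (a i j : K)) →
      ∀ (L : Type) [Field L] [NumberField L] [Algebra K L] (φ : ∀ i, A i →+* L) (S : Finset ℕ),
        (∀ i, φ i (tt (A i)) = algebraMap K L (x i)) → (∀ p ∈ S, p.Prime) →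
        (∀ i l, φ i (z i l 0) ≠ 0) ∧ ∀ D : ∀ i, Finset (Fin (r i)),
        Module.finrank K L * cc M.primeFactors (fun v => ∃ i ∈ (Finset.univ : Finset Λ),
            NearA (a i) (x i) v) ≤
        Real.log |(discr L : ℝ)| - Module.finrank K L * Real.log |(discr K : ℝ)| +
          cc S (fun w : HeightOneSpectrum (𝓞 L) => ∃ i ∈ (Finset.univ : Finset Λ), ∃ l ∈ D i,
            NearP (z i l) (φ i) w) +
          Module.finrank ℚ L * ∑ p ∈ S, Real.log p +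
          ∑ i, ∑ l ∈ (D i)ᶜ, ((Module.finrank ℚ (A i ⧸ Ideal.span (Set.range (z i l))) : ℝ) /
            Module.finrank ℚ[X] (A i) + κ) *
              (Module.finrank K L * Real.log (Height.mulHeight₁ (x i))) +
          Module.finrank ℚ L * C₁ := by
  have hst := fun i => star2 K (a i) (b i) (u i) (z i) (hz i) (hcov i) hκ
  choose M₁ C₁ hM₁ hC₁ hst using hst
  have hM0 : ∏ i, M₁ i ≠ 0 := Finset.prod_ne_zero_iff.2 fun i _ => hM₁ i
  refine ⟨∏ i, M₁ i, ∑ i, r i * C₁ i, hM0,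
    Finset.sum_nonneg fun i _ => mul_nonneg (Nat.cast_nonneg _) (hC₁ i), ?_⟩
  intro x hx L _ _ _ φ S hφ hS
  have hst' := fun i => hst i (x i) (hx i) L (φ i) (hφ i)
  have hz0 : ∀ i l, φ i (z i l 0) ≠ 0 := fun i l => ((hst' i).2 l).1
  refine ⟨hz0, fun D => ?_⟩
  obtain ⟨T, hT⟩ : ∃ T, T = (∏ i, M₁ i).primeFactors := ⟨_, rfl⟩
  rw [← hT]
  have hTi : ∀ i, (M₁ i).primeFactors ⊆ T := by
    intro i
    rw [hT]
    exact Nat.primeFactors_mono (Finset.dvd_prod_of_mem M₁ (Finset.mem_univ i)) hM0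
  have hxL : ∀ i j, algebraMap K L (x i) ≠ (a i j : L) := by
    intro i j h
    apply hx i j
    apply FaithfulSMul.algebraMap_injective K L
    rw [h, map_ratCast]
  -- the two sets of primes
  have hfK : {v : HeightOneSpectrum (𝓞 K) | (∀ p ∈ T, (p : 𝓞 K) ∉ v.asIdeal) ∧
      ∃ i ∈ (Finset.univ : Finset Λ), NearA (a i) (x i) v}.Finite := by
    refine (Set.finite_iUnion fun i => nearA_finite (a i) (x i) (hx i)).subset ?_
    rintro v ⟨-, i, -, hv⟩
    exact Set.mem_iUnion.mpr ⟨i, hv⟩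
  have hfL' : {w : HeightOneSpectrum (𝓞 L) | ∃ i ∈ (Finset.univ : Finset Λ),
      NearA (a i) (algebraMap K L (x i)) w}.Finite := by
    refine (Set.finite_iUnion fun i =>
      nearA_finite (a i) (algebraMap K L (x i)) (hxL i)).subset ?_
    rintro v ⟨i, -, hv⟩
    exact Set.mem_iUnion.mpr ⟨i, hv⟩
  have hfL : {w : HeightOneSpectrum (𝓞 L) | (∀ p ∈ T, (p : 𝓞 L) ∉ w.asIdeal) ∧
      ∃ i ∈ (Finset.univ : Finset Λ), NearA (a i) (algebraMap K L (x i)) w}.Finite :=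
    hfL'.subset fun w hw => hw.2
  have h1 := rel2 (k := K) (L := L) hfK.toFinset hfL.toFinset (by
    intro v hv w hw
    rw [Set.Finite.mem_toFinset] at hv ⊢
    obtain ⟨h2, i, hi, h3⟩ := hv
    obtain ⟨h4, h5⟩ := nearA_iff (L := L) T (a i) (x i) v w hw ⟨h2, h3⟩
    exact ⟨h4, i, hi, h5⟩)
  rw [← cc_sum T _ hfK, ← cc_sum T _ hfL] at h1
  have hPf : ∀ i l, {w : HeightOneSpectrum (𝓞 L) | NearP (z i l) (φ i) w}.Finite := fun i l =>
    Pool.Agent.W223.AC.near_finite (z i l) (φ i) (hz0 i l)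
  have hDf : ∀ E : ∀ i, Finset (Fin (r i)), {w : HeightOneSpectrum (𝓞 L) |
      ∃ i ∈ (Finset.univ : Finset Λ), ∃ l ∈ E i, NearP (z i l) (φ i) w}.Finite := by
    intro E
    refine (Set.finite_iUnion fun i => Set.finite_iUnion fun l => hPf i l).subset ?_
    rintro w ⟨i, -, l, -, hw⟩
    exact Set.mem_iUnion.2 ⟨i, Set.mem_iUnion.2 ⟨l, hw⟩⟩
  have h2 : cc T (fun w : HeightOneSpectrum (𝓞 L) => ∃ i ∈ (Finset.univ : Finset Λ),
      NearA (a i) (algebraMap K L (x i)) w) ≤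
      cc ∅ (fun w : HeightOneSpectrum (𝓞 L) => ∃ i ∈ (Finset.univ : Finset Λ), ∃ l ∈ D i,
            NearP (z i l) (φ i) w) +
        cc ∅ (fun w : HeightOneSpectrum (𝓞 L) => ∃ i ∈ (Finset.univ : Finset Λ), ∃ l ∈ (D i)ᶜ,
            NearP (z i l) (φ i) w) := by
    refine le_trans (cc_mono (Finset.empty_subset T) ((hDf D).union (hDf fun i => (D i)ᶜ)) ?_)
      (cc_or ∅ (hDf D) (hDf fun i => (D i)ᶜ))
    rintro w hw ⟨i, hi, h3⟩
    obtain ⟨l, hl⟩ := (hst' i).1 w (fun p hp => hw p (hTi i hp)) h3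
    by_cases h4 : l ∈ D i
    · exact Or.inl ⟨i, hi, l, h4, hl⟩
    · exact Or.inr ⟨i, hi, l, Finset.mem_compl.2 h4, hl⟩
  have h3 := cc_outside Pool.Agent.W803.AC.t S hS _ (hDf D)
  have h4 : cc ∅ (fun w : HeightOneSpectrum (𝓞 L) => ∃ i ∈ (Finset.univ : Finset Λ), ∃ l ∈ (D i)ᶜ,
            NearP (z i l) (φ i) w) ≤
      ∑ i, ∑ l ∈ (D i)ᶜ, cc ∅ (fun w : HeightOneSpectrum (𝓞 L) => NearP (z i l) (φ i) w) := by
    refine (cc_exists ∅ Finset.univ (fun i (w : HeightOneSpectrum (𝓞 L)) => ∃ l ∈ (D i)ᶜ,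
            NearP (z i l) (φ i) w) fun i => ?_).trans (Finset.sum_le_sum fun i _ => ?_)
    · refine (Set.finite_iUnion fun l => hPf i l).subset ?_
      rintro w ⟨l, -, hw⟩
      exact Set.mem_iUnion.2 ⟨l, hw⟩
    · exact cc_exists ∅ (D i)ᶜ (fun l (w : HeightOneSpectrum (𝓞 L)) => NearP (z i l) (φ i) w)
        fun l => hPf i l
  have h5 : ∑ i, ∑ l ∈ (D i)ᶜ, cc ∅ (fun w : HeightOneSpectrum (𝓞 L) => NearP (z i l) (φ i) w) ≤
      ∑ i, ∑ l ∈ (D i)ᶜ, ((Module.finrank ℚ (A i ⧸ Ideal.span (Set.range (z i l))) : ℝ) /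
            Module.finrank ℚ[X] (A i) + κ) *
              (Module.finrank K L * Real.log (Height.mulHeight₁ (x i))) +
        Module.finrank ℚ L * ∑ i, r i * C₁ i := by
    rw [Finset.mul_sum, ← Finset.sum_add_distrib]
    refine Finset.sum_le_sum fun i _ => ?_
    have h6 : ∑ l ∈ (D i)ᶜ, cc ∅ (fun w : HeightOneSpectrum (𝓞 L) => NearP (z i l) (φ i) w) ≤
        ∑ l ∈ (D i)ᶜ, (((Module.finrank ℚ (A i ⧸ Ideal.span (Set.range (z i l))) : ℝ) /
            Module.finrank ℚ[X] (A i) + κ) *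
              (Module.finrank K L * Real.log (Height.mulHeight₁ (x i))) +
          Module.finrank ℚ L * C₁ i) :=
      Finset.sum_le_sum fun l _ => (cc_le_lamF (z i l) (φ i) (hz0 i l)).trans ((hst' i).2 l).2
    refine h6.trans ?_
    rw [Finset.sum_add_distrib, Finset.sum_const, nsmul_eq_mul]
    refine add_le_add_right ?_ _
    have h7 : (((D i)ᶜ.card : ℕ) : ℝ) ≤ r i := by
      have := Finset.card_le_univ (D i)ᶜ
      rw [Fintype.card_fin] at this
      exact_mod_cast this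
    have h8 : 0 ≤ Module.finrank ℚ L * C₁ i := mul_nonneg (Nat.cast_nonneg _) (hC₁ i)
    calc (((D i)ᶜ.card : ℕ) : ℝ) * (Module.finrank ℚ L * C₁ i) ≤
          r i * (Module.finrank ℚ L * C₁ i) := mul_le_mul_of_nonneg_right h7 h8
      _ = _ := by ring
  rw [mul_add] at h1
  linarith

end Pool.Agent.Q183.VC
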