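import Mathlib
import Pool.Agent.W469.CV.REL
import Pool.Agent.W223.AC.MasterK
import Pool.Agent.W223.AC.Split
import Pool.Agent.W976.AC.EX
import Pool.Agent.W460.AC.NORM
import Pool.Agent.W597.AC.LOC
import Pool.Agent.W193.AC.FINQ
import Pool.Agent.W398.AC.DIM
import Pool.Agent.W131.AC.GROW
import Pool.Agent.W989.AC.MULT
import Pool.Agent.W410.AC.HTG
import Pool.Agent.W803.AC.SUMN
import Pool.Agent.W756.AC.LOCP
import Pool.Agent.W223.AC.SUMP

/-!
The inequality between the proximity function, the height and the logarithmic discriminant of a point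
of a curve over the line, and the truncated counting function of its image (the argument of the
starting file MP_6f1c57_nt.AllFieldsHeightInequality, as an inequality at every point).
-/

set_option autoImplicit false

namespace Pool.Agent.Q183.VC

open Polynomial IsDedekindDomain NumberField

/-- the sum of the local heights of the reduced fibres -/
noncomputable def W {A : Type} [CommRing A] (S : Finset ℕ) {q : ℕ}
    (u : Fin q → ℕ) (y : ∀ j, Fin (u j + 1) → A)
    (L : Type) [Field L] [NumberField L] (φ : A →+* L) : ℝ :=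
  ∑ j, (∑ w : InfinitePlace L, (w.mult : ℝ) *
      Pool.Agent.W223.AC.lamI (y j) φ w + Pool.Agent.W223.AC.mS S (y j) φ)

theorem master {A : Type} [CommRing A] [IsDedekindDomain A] [Algebra ℚ A] [Algebra ℚ[X] A]
    [IsScalarTower ℚ ℚ[X] A] [Module.Finite ℚ[X] A] [FaithfulSMul ℚ[X] A]
    {q : ℕ} (hq : 0 < q) (a : Fin q → ℚ)
    (u : Fin q → ℕ) (y : ∀ j, Fin (u j + 1) → A)
    (hy0 : ∀ j, y j 0 = Pool.Agent.W223.AC.tt A - algebraMap ℚ[X] A (C (a j)))
    (hyr : ∀ j i, y j i ∈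
      (Ideal.span {Pool.Agent.W223.AC.tt A - algebraMap ℚ[X] A (C (a j))}).radical)
    {κ : ℝ} (hκ : 0 < κ) :
    ∃ (M : ℕ) (G : ℚ[X]) (C₁ : ℝ), M ≠ 0 ∧ G ≠ 0 ∧ 0 ≤ C₁ ∧
      ∀ (K : Type) [Field K] [NumberField K] (x : K), (∀ j, x ≠ (a j : K)) → aeval x G ≠ 0 →
      ∀ (L : Type) [Field L] [NumberField L] [Algebra K L] (φ : A →+* L) (S : Finset ℕ),
        φ (Pool.Agent.W223.AC.tt A) = algebraMap K L x → (∀ p ∈ S, p.Prime) →
        (∀ j, {v : HeightOneSpectrum (𝓞 L) | Pool.Agent.W223.AC.lamF (y j) φ v ≠ 0}.Finite) ∧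
        W S u y L φ + (Module.finrank K L : ℝ) * Pool.Agent.W223.VD.cnt M.primeFactors
            (fun j => Pool.Agent.W223.AC.pt (a j)) x +
          (q - (∑ j, (Module.finrank ℚ (A ⧸ Ideal.span (Set.range (y j))) : ℝ)) /
            Module.finrank ℚ[X] A) *
              (Module.finrank K L * Real.log (Height.mulHeight₁ x)) ≤
        Real.log |(discr L : ℝ)| - Module.finrank K L * Real.log |(discr K : ℝ)| +
          Module.finrank ℚ L * ∑ p ∈ S, Real.log p +
          (q + κ) * (Module.finrank K L * Real.log (Height.mulHeight₁ x)) +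
          Module.finrank ℚ L * C₁ := by
  classical
  have hqp : (0 : ℝ) < q := by exact_mod_cast hq
  obtain ⟨M, Ck, G, hM, hCk, hG, hkey⟩ := Pool.Agent.W223.AC.keyG
    (Pool.Agent.W223.AC.nbp (Pool.Agent.W976.AC.EX.t Pool.Agent.W398.AC.DIM.t
      Pool.Agent.W193.AC.FINQ.t Pool.Agent.W989.AC.MULT.t) Pool.Agent.W756.AC.t
      (Pool.Agent.W410.AC.t Pool.Agent.W131.AC.t) Pool.Agent.W223.AC.SUMP.t
      Pool.Agent.W460.AC.t)
    Pool.Agent.W989.AC.MULT.t Pool.Agent.W597.AC.t A a (fun j : Fin q => j) u y hy0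
    (by
      intro k
      have h1 : (Finset.univ.filter fun l : Fin q => l = k) = {k} := by
        ext l
        simp
      rw [h1, Finset.prod_singleton, Ideal.span_le]
      rintro _ ⟨i, rfl⟩
      exact hyr k i) (κ / q) (by positivity)
  refine ⟨M, G, q * Ck, hM, hG, by positivity, ?_⟩
  intro K _ _ x hx hGx L _ _ _ φ S hφ hS
  obtain ⟨S', hS'⟩ : ∃ S', S' = M.primeFactors := ⟨_, rfl⟩
  rw [← hS']
  obtain ⟨P, hP⟩ : ∃ P : Fin q → ℤ × ℤ, P = fun j => Pool.Agent.W223.AC.pt (a j) := ⟨_, rfl⟩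
  rw [← hP]
  have hne : ∀ k, φ (Pool.Agent.W223.AC.tt A) ≠ (a k : L) := by
    intro k h
    rw [hφ] at h
    apply hx k
    apply FaithfulSMul.algebraMap_injective K L
    rw [h, map_ratCast]
  have hGL : aeval (φ (Pool.Agent.W223.AC.tt A)) G ≠ 0 := by
    rw [hφ, aeval_algebraMap_apply]
    intro h
    rw [map_eq_zero] at h
    exact hGx h
  obtain ⟨hk1, hk2⟩ := hkey L φ hGL hne
  have hz0 : ∀ l, φ (y l 0) ≠ 0 := by
    intro l
    rw [hy0 l, map_sub]
    have : φ (algebraMap ℚ[X] A (Polynomial.C (a l))) = (a l : L) :=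
      eq_ratCast (φ.comp ((algebraMap ℚ[X] A).comp Polynomial.C)) (a l)
    rw [this]
    exact sub_ne_zero.mpr (hne l)
  have hnf : ∀ l, {v : HeightOneSpectrum (𝓞 L) | Pool.Agent.W223.AC.NearP (y l) φ v}.Finite :=
    fun l => Pool.Agent.W223.AC.near_finite (y l) φ (hz0 l)
  have hnfU : {v : HeightOneSpectrum (𝓞 L) | ∃ l ∈ (Finset.univ : Finset (Fin q)),
      Pool.Agent.W223.AC.NearP (y l) φ v}.Finite := by
    refine (Set.finite_iUnion fun l => hnf l).subset ?_
    rintro v ⟨l, -, hv⟩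
    exact Set.mem_iUnion.mpr ⟨l, hv⟩
  have hk1 := ((hk1 ∅).trans (Pool.Agent.W223.CV.cc_mono (Finset.empty_subset ∅) hnfU
    fun v _ h => h)).trans ((Pool.Agent.W223.AC.cc_outside Pool.Agent.W803.AC.t S hS _ hnfU).trans
    (add_le_add_left (Pool.Agent.W223.CV.cc_exists S Finset.univ
      (fun l (v : HeightOneSpectrum (𝓞 L)) => Pool.Agent.W223.AC.NearP (y l) φ v) hnf) _))
  have hlin : ∀ j, Pool.Agent.W223.CV.lin (P j) x ≠ 0 := by
    intro j h
    rw [hP] at h
    unfold Pool.Agent.W223.CV.lin Pool.Agent.W223.AC.pt at h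
    have h11 : ((a j : ℚ) : K) = (((a j).num : ℤ) : K) / (((a j).den : ℤ) : K) := by
      have := Rat.cast_def (K := K) (a j)
      push_cast
      exact this
    have h12 : (((a j).den : ℤ) : K) ≠ 0 := by exact_mod_cast (a j).den_nz
    apply hx j
    rw [h11, eq_div_iff h12]
    exact (sub_eq_zero.mp h).symm
  -- base change to `L`
  have hrel := Pool.Agent.W469.CV.REL.t K L q S' P x hlin
  rw [← hφ] at hrel
  refine ⟨fun j => (hk2 j).1, ?_⟩
  obtain ⟨d, hd⟩ : ∃ d : ℝ, d = (Module.finrank ℚ K : ℝ) := ⟨_, rfl⟩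
  obtain ⟨m, hm⟩ : ∃ m : ℝ, m = (Module.finrank K L : ℝ) := ⟨_, rfl⟩
  have hd0 : 0 < d := by rw [hd]; exact_mod_cast Module.finrank_pos
  have hm0 : 0 < m := by rw [hm]; exact_mod_cast Module.finrank_pos
  have htow : (Module.finrank ℚ L : ℝ) = d * m := by
    rw [hd, hm]
    exact_mod_cast (Module.finrank_mul_finrank ℚ K L).symm
  obtain ⟨H, hH⟩ : ∃ H : ℝ, H = Real.log (Height.mulHeight₁ x) := ⟨_, rfl⟩
  have hHξ : Real.log (Height.mulHeight₁ (φ (Pool.Agent.W223.AC.tt A))) = m * H := by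
    rw [hφ, Pool.Agent.W223.AC.MK.log_height_ext L x, ← hm, ← hH]
  obtain ⟨μ, hμ⟩ : ∃ μ : ℝ, μ = (∑ j, (Module.finrank ℚ
    (A ⧸ Ideal.span (Set.range (y j))) : ℝ)) / Module.finrank ℚ[X] A := ⟨_, rfl⟩
  obtain ⟨V, hW⟩ : ∃ V : ℝ, V = W S u y L φ := ⟨_, rfl⟩
  obtain ⟨R, hR⟩ : ∃ R : ℝ, R = ∑ p ∈ S, Real.log p := ⟨_, rfl⟩
  -- the sum over the fibres
  have h5 : ∀ l, Pool.Agent.W223.CV.cc S (fun v : HeightOneSpectrum (𝓞 L) =>
        Pool.Agent.W223.AC.NearP (y l) φ v) +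
      (∑ w : InfinitePlace L, (w.mult : ℝ) * Pool.Agent.W223.AC.lamI (y l) φ w +
        Pool.Agent.W223.AC.mS S (y l) φ) ≤
      ((Module.finrank ℚ (A ⧸ Ideal.span (Set.range (y l))) : ℝ) /
          Module.finrank ℚ[X] A + κ / q) * (m * H) + d * m * Ck := by
    intro l
    obtain ⟨h6, h7⟩ := hk2 l
    have h8 := Pool.Agent.W223.AC.split_prox (y l) φ S (hz0 l) h6
    rw [hHξ, htow] at h7
    linarith
  have h6 := Finset.sum_le_sum fun l (_ : l ∈ Finset.univ) => h5 l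
  rw [Finset.sum_add_distrib] at h6
  have h6' : ∑ l, Pool.Agent.W223.CV.cc S (fun v : HeightOneSpectrum (𝓞 L) =>
        Pool.Agent.W223.AC.NearP (y l) φ v) + V ≤
      ∑ l, (((Module.finrank ℚ (A ⧸ Ideal.span (Set.range (y l))) : ℝ) /
          Module.finrank ℚ[X] A + κ / q) * (m * H) + d * m * Ck) := by
    rw [hW]
    exact h6
  have h7 : ∑ l, (((Module.finrank ℚ (A ⧸ Ideal.span (Set.range (y l))) : ℝ) /
          Module.finrank ℚ[X] A + κ / q) * (m * H) + d * m * Ck) =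
      (μ + κ) * (m * H) + q * (d * m * Ck) := by
    rw [Finset.sum_add_distrib, ← Finset.sum_mul, Finset.sum_add_distrib, ← Finset.sum_div,
      Finset.sum_const, Finset.sum_const, Finset.card_univ, Fintype.card_fin, nsmul_eq_mul,
      nsmul_eq_mul, ← hμ]
    congr 2
    field_simp
  rw [h7] at h6'
  rw [← hm] at hrel
  have h8 : Pool.Agent.W223.VD.cnt S' P (φ (Pool.Agent.W223.AC.tt A)) ≤
      ∑ l, Pool.Agent.W223.CV.cc S (fun v : HeightOneSpectrum (𝓞 L) =>
        Pool.Agent.W223.AC.NearP (y l) φ v) + d * m * R := by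
    rw [← htow, hR, hS', hP]
    rw [Finset.empty_union] at hk1
    exact hk1
  rw [← hW, ← hm, ← hμ, ← hH, ← hR, htow]
  have e1 : (q - μ) * (m * H) = q * (m * H) - μ * (m * H) := by ring
  have e2 : (q + κ) * (m * H) = q * (m * H) + κ * (m * H) := by ring
  have e3 : (μ + κ) * (m * H) = μ * (m * H) + κ * (m * H) := by ring
  have e4 : q * (d * m * Ck) = d * m * (q * Ck) := by ring
  have e5 : m * (Real.log |(discr K : ℝ)| + Pool.Agent.W223.VD.cnt S' P x) =
      m * Real.log |(discr K : ℝ)| + m * Pool.Agent.W223.VD.cnt S' P x := by ring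
  rw [e1, e2]
  rw [e3, e4] at h6'
  rw [e5] at hrel
  linarith

end Pool.Agent.Q183.VC
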