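import Pool.Agent.Q183.VC.Triv

/-!
For every point of a curve over the line above `x`: the primes at which `x` is near one of the points
`a_j`, together with the proximity function, are controlled by the height of `x`, without an
exceptional set (the constant depends on the ground field `K`).
-/

set_option autoImplicit false

namespace Pool.Agent.Q183.VC

open Polynomial IsDedekindDomain NumberField
open Pool.Agent.W223.CV Pool.Agent.W223.AC
open Pool.Agent.W125.CV (fv)

/-- the primes at which `x` is near one of the `a_j` -/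
def NearA {L : Type} [Field L] [NumberField L] {q : ℕ} (a : Fin q → ℚ) (x : L)
    (w : HeightOneSpectrum (𝓞 L)) : Prop :=
  ∃ j ∈ (Finset.univ : Finset (Fin q)), Near (pt (a j)) x w

open Classical in
theorem local_le' {A : Type} [CommRing A] [Algebra ℚ[X] A] (S : Finset ℕ) {s : ℕ}
    (z : Fin (s + 1) → A) {L : Type} [Field L] [NumberField L] (φ : A →+* L) (hz : φ (z 0) ≠ 0) :
    cc S (fun v : HeightOneSpectrum (𝓞 L) => NearP (fun _ : Fin (0 + 1) => z 0) φ v) +
      (∑ w : InfinitePlace L, (w.mult : ℝ) * lamI z φ w + mS S z φ) ≤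
      Real.log (Height.mulHeight₁ (φ (z 0))) := by
  have hfin := Pool.Agent.W125.CV.max_support_finite (φ (z 0))⁻¹
  set z1 : Fin (0 + 1) → A := fun _ => z 0 with hz1
  have hz1' : φ (z1 0) ≠ 0 := hz
  have hf1 := lamF_finite z1 φ hz1'
  have h1 := split_prox z1 φ S hz1' hf1
  have h2 : ∀ v : HeightOneSpectrum (𝓞 L), lamF z φ v ≤ lamF z1 φ v := by
    intro v
    unfold lamF
    refine (neg_log_sup_le (fun i => fv v (φ (z i))) ((fv v).pos_iff.2 hz)).trans ?_
    have e1 : (⨆ i : Fin (0 + 1), fv v (φ (z1 i))) = fv v (φ (z 0)) := by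
      rw [hz1]
      exact ciSup_const
    rw [e1, ← Real.log_inv]
    rcases le_total (fv v (φ (z 0)))⁻¹ 1 with h3 | h3
    · rw [max_eq_right h3, Real.log_one]
      exact le_max_left _ _
    · rw [max_eq_left h3]
      exact le_max_right _ _
  have h3 : mS S z φ ≤ mS S z1 φ := by
    unfold mS
    refine finsum_le_finsum' ?_ ?_ fun v => ?_
    · refine (lamF_finite z φ hz).subset fun v hv => ?_
      rw [Function.mem_support] at hv
      intro h
      apply hv
      rw [h, ite_self]
    · refine hf1.subset fun v hv => ?_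
      rw [Function.mem_support] at hv
      intro h
      apply hv
      rw [h, ite_self]
    · split_ifs
      · exact h2 v
      · exact le_refl _
  have h4 : ∑ᶠ v : HeightOneSpectrum (𝓞 L), lamF z1 φ v ≤
      ∑ v ∈ hfin.toFinset, Real.log (max (fv v (φ (z 0))⁻¹) 1) := by
    have h5 : ∀ v : HeightOneSpectrum (𝓞 L),
        lamF z1 φ v ≤ Real.log (max (fv v (φ (z 0))⁻¹) 1) := by
      intro v
      unfold lamF
      rw [map_inv₀]
      exact neg_log_sup_le (fun i => fv v (φ (z1 i))) ((fv v).pos_iff.2 hz)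
    rw [finsum_eq_sum_of_support_subset (s := hfin.toFinset)]
    · exact Finset.sum_le_sum fun v _ => h5 v
    · intro v hv
      rw [Set.Finite.coe_toFinset]
      intro h6
      apply hv
      have h7 := h5 v
      rw [h6, Real.log_one] at h7
      exact le_antisymm h7 (lamF_nonneg z1 φ v)
  have h5 : ∑ w : InfinitePlace L, (w.mult : ℝ) * lamI z φ w ≤
      ∑ w : InfinitePlace L, (w.mult : ℝ) * Real.log (max (w (φ (z 0))⁻¹) 1) := by
    refine Finset.sum_le_sum fun w _ => mul_le_mul_of_nonneg_left ?_ (Nat.cast_nonneg _)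
    rw [map_inv₀]
    exact neg_log_sup_le (fun i => w (φ (z i))) (by
      show 0 < w (φ (z 0))
      exact w.pos_iff.2 hz)
  rw [← Height.mulHeight₁_inv, Pool.Agent.W125.CV.height_sum (φ (z 0))⁻¹ hfin.toFinset
    fun v hv => (Set.Finite.mem_toFinset _).2 hv]
  linarith

theorem star (K : Type) [Field K] [NumberField K] {A : Type} [CommRing A] [IsDedekindDomain A]
    [Algebra ℚ A] [Algebra ℚ[X] A]
    [IsScalarTower ℚ ℚ[X] A] [Module.Finite ℚ[X] A] [FaithfulSMul ℚ[X] A]
    {q : ℕ} (hq : 0 < q) (a : Fin q → ℚ)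
    (u : Fin q → ℕ) (y : ∀ j, Fin (u j + 1) → A)
    (hy0 : ∀ j, y j 0 = tt A - algebraMap ℚ[X] A (C (a j)))
    (hyr : ∀ j i, y j i ∈ (Ideal.span {tt A - algebraMap ℚ[X] A (C (a j))}).radical)
    {κ : ℝ} (hκ : 0 < κ) :
    ∃ (M : ℕ) (C₁ : ℝ), M ≠ 0 ∧ 0 ≤ C₁ ∧
      ∀ (x : K), (∀ j, x ≠ (a j : K)) →
      ∀ (L : Type) [Field L] [NumberField L] [Algebra K L] (φ : A →+* L) (S : Finset ℕ),
        φ (tt A) = algebraMap K L x →
        cc (S ∪ M.primeFactors) (NearA a (algebraMap K L x)) + W S u y L φ ≤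
          ((∑ j, (Module.finrank ℚ (A ⧸ Ideal.span (Set.range (y j))) : ℝ)) /
            Module.finrank ℚ[X] A + κ) *
              (Module.finrank K L * Real.log (Height.mulHeight₁ x)) +
            Module.finrank ℚ L * C₁ := by
  classical
  have hqp : (0 : ℝ) < q := by exact_mod_cast hq
  obtain ⟨M, Ck, G, hM, hCk, hG, hkey⟩ := Pool.Agent.W223.AC.keyG
    (Pool.Agent.W223.AC.nbp (Pool.Agent.W976.AC.EX.t Pool.Agent.W398.AC.DIM.t
      Pool.Agent.W193.AC.FINQ.t Pool.Agent.W989.AC.MULT.t) Pool.Agent.W756.AC.t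
      (Pool.Agent.W410.AC.t Pool.Agent.W131.AC.t) Pool.Agent.W223.AC.SUMP.t
      Pool.Agent.W460.AC.t)
    Pool.Agent.W989.AC.MULT.t Pool.Agent.W597.AC.t A a (fun j : Fin q => j) u y hy0
    (by
      intro k
      have h1 : (Finset.univ.filter fun l : Fin q => l = k) = {k} := by
        ext l
        simp
      rw [h1, Finset.prod_singleton, Ideal.span_le]
      rintro _ ⟨i, rfl⟩
      exact hyr k i) (κ / q) (by positivity)
  obtain ⟨H₀, hH₀⟩ : ∃ H₀ : ℝ, ∀ x : K, aeval x G = 0 → Real.log (Height.mulHeight₁ x) ≤ H₀ := by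
    have hfin : (G.rootSet K).Finite := G.rootSet_finite K
    obtain ⟨H, hH⟩ := (hfin.image fun x => Real.log (Height.mulHeight₁ x)).bddAbove
    exact ⟨H, fun x hx => hH ⟨x, (Polynomial.mem_rootSet_of_ne hG).2 hx, rfl⟩⟩
  set C₂ : ℝ := ∑ j, (Real.log 2 + Real.log (Height.mulHeight₁ (a j))) with hC₂
  have hC₂0 : 0 ≤ C₂ := Finset.sum_nonneg fun j _ => add_nonneg (Real.log_nonneg one_le_two)
      (Real.log_nonneg (Height.one_le_mulHeight₁ _))
  set n : ℝ := (Module.finrank ℚ K : ℝ) with hn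
  have hn0 : 0 < n := by rw [hn]; exact_mod_cast Module.finrank_pos
  refine ⟨M * ∏ j, (a j).den, q * Ck + C₂ + q * (max H₀ 0) / n,
    mul_ne_zero hM (Finset.prod_ne_zero_iff.2 fun j _ => (a j).den_nz), by positivity, ?_⟩
  intro x hx L _ _ _ φ S hφ
  have hne : ∀ k, φ (tt A) ≠ (a k : L) := by
    intro k h
    rw [hφ] at h
    apply hx k
    apply FaithfulSMul.algebraMap_injective K L
    rw [h, map_ratCast]
  have hz : ∀ l, φ (y l 0) = algebraMap K L x - (a l : L) := by
    intro l
    rw [hy0 l, map_sub, hφ]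
    congr 1
    exact eq_ratCast (φ.comp ((algebraMap ℚ[X] A).comp Polynomial.C)) (a l)
  have hz0 : ∀ l, φ (y l 0) ≠ 0 := by
    intro l h
    rw [hz l, sub_eq_zero, ← hφ] at h
    exact hne l h
  obtain ⟨m, hm⟩ : ∃ m : ℝ, m = (Module.finrank K L : ℝ) := ⟨_, rfl⟩
  have hm0 : 0 < m := by rw [hm]; exact_mod_cast Module.finrank_pos
  have htow : (Module.finrank ℚ L : ℝ) = n * m := by
    rw [hn, hm]
    exact_mod_cast (Module.finrank_mul_finrank ℚ K L).symm
  obtain ⟨H, hH⟩ : ∃ H : ℝ, H = Real.log (Height.mulHeight₁ x) := ⟨_, rfl⟩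
  have hH0 : 0 ≤ H := by rw [hH]; exact Real.log_nonneg (Height.one_le_mulHeight₁ _)
  have hHξ : Real.log (Height.mulHeight₁ (φ (tt A))) = m * H := by
    rw [hφ, Pool.Agent.W223.AC.MK.log_height_ext L x, ← hm, ← hH]
  set Mt := M * ∏ j, (a j).den with hMt
  have hMt0 : Mt ≠ 0 := mul_ne_zero hM (Finset.prod_ne_zero_iff.2 fun j _ => (a j).den_nz)
  have hlin : ∀ j, lin (pt (a j)) (algebraMap K L x) ≠ 0 := by
    intro j h
    unfold lin pt at h
    have h11 : ((a j : ℚ) : L) = (((a j).num : ℤ) : L) / (((a j).den : ℤ) : L) := by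
      have := Rat.cast_def (K := L) (a j)
      push_cast
      exact this
    have h12 : (((a j).den : ℤ) : L) ≠ 0 := by exact_mod_cast (a j).den_nz
    apply hne j
    rw [hφ, h11, eq_div_iff h12]
    exact (sub_eq_zero.mp h).symm
  have hfinN : {w : HeightOneSpectrum (𝓞 L) | NearA a (algebraMap K L x) w}.Finite := by
    refine (Set.finite_iUnion fun j => Pool.Agent.W223.CV.near_finite _ _ (hlin j)).subset ?_
    rintro v ⟨j, -, hv⟩
    exact Set.mem_iUnion.mpr ⟨j, hv⟩
  have hsub : S ∪ M.primeFactors ⊆ S ∪ Mt.primeFactors :=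
    Finset.union_subset_union_right (Nat.primeFactors_mono (Dvd.intro _ rfl) hMt0)
  have hnn : 0 ≤ n * m * (q * max H₀ 0 / n) := by positivity
  set μ : ℝ := (∑ j, (Module.finrank ℚ (A ⧸ Ideal.span (Set.range (y j))) : ℝ)) /
    Module.finrank ℚ[X] A with hμ
  have hμ0 : 0 ≤ μ := div_nonneg (Finset.sum_nonneg fun j _ => Nat.cast_nonneg _)
    (Nat.cast_nonneg _)
  rw [← hm, ← hH, htow]
  by_cases hGx : aeval x G = 0
  · -- the trivial bound
    have h1 := hH₀ x hGx
    rw [← hH] at h1
    have h2 : cc (S ∪ Mt.primeFactors) (NearA a (algebraMap K L x)) ≤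
        ∑ l, cc S (fun v : HeightOneSpectrum (𝓞 L) =>
          NearP (fun _ : Fin (0 + 1) => y l 0) φ v) := by
      have hfin1 : ∀ l, {v : HeightOneSpectrum (𝓞 L) |
          NearP (fun _ : Fin (0 + 1) => y l 0) φ v}.Finite := fun l =>
        Pool.Agent.W223.AC.near_finite (fun _ : Fin (0 + 1) => y l 0) φ (hz0 l)
      refine le_trans (cc_mono Finset.subset_union_left ?_ ?_)
        (cc_exists S Finset.univ (fun l (v : HeightOneSpectrum (𝓞 L)) =>
          NearP (fun _ : Fin (0 + 1) => y l 0) φ v) hfin1)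
      · refine (Set.finite_iUnion fun l => hfin1 l).subset ?_
        rintro v ⟨l, -, hv⟩
        exact Set.mem_iUnion.mpr ⟨l, hv⟩
      · rintro v hv ⟨j, -, hn⟩
        have hMv : (Mt : 𝓞 L) ∉ v.asIdeal := not_mem_of_primes hMt0 fun p hp =>
          hv p (Finset.mem_union_right _ hp)
        have hdv : (((a j).den : ℕ) : 𝓞 L) ∉ v.asIdeal := not_mem_of_dvd
          ((Finset.dvd_prod_of_mem (fun j => (a j).den) (Finset.mem_univ j)).trans
            (Dvd.intro_left _ rfl)) hMv
        obtain ⟨h2, h3⟩ := near_pt (a j) (algebraMap K L x) v hdv hn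
        refine ⟨j, Finset.mem_univ j, by rw [hφ]; exact h2, fun _ => ?_⟩
        rw [hz j]
        exact h3
    have h3 : ∀ l, cc S (fun v : HeightOneSpectrum (𝓞 L) =>
          NearP (fun _ : Fin (0 + 1) => y l 0) φ v) +
        (∑ w : InfinitePlace L, (w.mult : ℝ) * lamI (y l) φ w + mS S (y l) φ) ≤
        m * H + n * m * (Real.log 2 + Real.log (Height.mulHeight₁ (a l))) := by
      intro l
      refine (local_le' S (y l) φ (hz0 l)).trans ?_
      rw [hz l]
      have e1 : (a l : L) = algebraMap ℚ L (a l) := rfl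
      rw [e1]
      have h2 := Height.logHeight₁_sub_le (algebraMap K L x) (algebraMap ℚ L (a l))
      rw [Height.logHeight₁_eq_log_mulHeight₁, Height.logHeight₁_eq_log_mulHeight₁,
        Height.logHeight₁_eq_log_mulHeight₁,
        Pool.Agent.W223.AC.MK.log_height_ext L x, Pool.Agent.W223.AC.MK.log_height_ext L (a l),
        NumberField.totalWeight_eq_finrank, htow, ← hm, ← hH] at h2
      linarith
    have h4 := Finset.sum_le_sum fun l (_ : l ∈ Finset.univ) => h3 l
    have h4' : ∑ l, (m * H + n * m * (Real.log 2 + Real.log (Height.mulHeight₁ (a l)))) =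
        q * (m * H) + n * m * C₂ := by
      rw [Finset.sum_add_distrib, Finset.sum_const, Finset.card_univ,
        Fintype.card_fin, nsmul_eq_mul, ← Finset.mul_sum, ← hC₂]
    rw [Finset.sum_add_distrib, h4'] at h4
    have h5 : q * (m * H) ≤ n * m * (q * max H₀ 0 / n) := by
      have e1 : n * m * (q * max H₀ 0 / n) = q * (m * max H₀ 0) := by
        field_simp
      rw [e1]
      exact mul_le_mul_of_nonneg_left (mul_le_mul_of_nonneg_left (h1.trans (le_max_left _ _))
        hm0.le) hqp.le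
    have h6 : 0 ≤ (μ + κ) * (m * H) := by positivity
    have h7 : 0 ≤ n * m * (q * Ck) := by positivity
    have h8 : W S u y L φ = ∑ j, (∑ w : InfinitePlace L, (w.mult : ℝ) * lamI (y j) φ w +
      mS S (y j) φ) := rfl
    rw [h8]
    have h9 : n * m * (q * Ck + C₂ + q * max H₀ 0 / n) = n * m * (q * Ck) + n * m * C₂ +
      n * m * (q * max H₀ 0 / n) := by ring
    rw [h9]
    linarith
  · have hGL : aeval (φ (tt A)) G ≠ 0 := by
      rw [hφ, aeval_algebraMap_apply]
      intro h
      rw [map_eq_zero] at h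
      exact hGx h
    obtain ⟨hk1, hk2⟩ := hkey L φ hGL hne
    have hnf : ∀ l, {v : HeightOneSpectrum (𝓞 L) | NearP (y l) φ v}.Finite :=
      fun l => Pool.Agent.W223.AC.near_finite (y l) φ (hz0 l)
    have h0 := hk1 S
    rw [Pool.Agent.W223.CV.cnt_eq, hφ] at h0
    have h1 : cc (S ∪ Mt.primeFactors) (NearA a (algebraMap K L x)) ≤
        ∑ l, cc S (fun v : HeightOneSpectrum (𝓞 L) => NearP (y l) φ v) := by
      refine le_trans (cc_mono hsub hfinN fun v _ h => h) (le_trans h0 ?_)
      exact cc_exists S Finset.univ (fun l (v : HeightOneSpectrum (𝓞 L)) => NearP (y l) φ v) hnf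
    have h5 : ∀ l, cc S (fun v : HeightOneSpectrum (𝓞 L) => NearP (y l) φ v) +
        (∑ w : InfinitePlace L, (w.mult : ℝ) * lamI (y l) φ w + mS S (y l) φ) ≤
        ((Module.finrank ℚ (A ⧸ Ideal.span (Set.range (y l))) : ℝ) /
            Module.finrank ℚ[X] A + κ / q) * (m * H) + n * m * Ck := by
      intro l
      obtain ⟨h6, h7⟩ := hk2 l
      have h8 := split_prox (y l) φ S (hz0 l) h6
      rw [hHξ, htow] at h7
      linarith
    have h6 := Finset.sum_le_sum fun l (_ : l ∈ Finset.univ) => h5 l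
    rw [Finset.sum_add_distrib] at h6
    have h7 : ∑ l, (((Module.finrank ℚ (A ⧸ Ideal.span (Set.range (y l))) : ℝ) /
            Module.finrank ℚ[X] A + κ / q) * (m * H) + n * m * Ck) =
        (μ + κ) * (m * H) + q * (n * m * Ck) := by
      rw [Finset.sum_add_distrib, ← Finset.sum_mul, Finset.sum_add_distrib, ← Finset.sum_div,
        Finset.sum_const, Finset.sum_const, Finset.card_univ, Fintype.card_fin, nsmul_eq_mul,
        nsmul_eq_mul, ← hμ]
      congr 2
      field_simp
    rw [h7] at h6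
    have h8 : W S u y L φ = ∑ j, (∑ w : InfinitePlace L, (w.mult : ℝ) * lamI (y j) φ w +
      mS S (y j) φ) := rfl
    rw [h8]
    have h9 : n * m * (q * Ck + C₂ + q * max H₀ 0 / n) = q * (n * m * Ck) + n * m * C₂ +
      n * m * (q * max H₀ 0 / n) := by ring
    have h10 : 0 ≤ n * m * C₂ := by positivity
    rw [h9]
    linarith

end Pool.Agent.Q183.VC
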