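import Pool.Agent.Q183.VC.Joint

/-!
The pieces of the reduced fibres of a curve over the line over rational points: at a prime at which
`x` is near a branch point, every point above `x` is near one of the pieces; and the height of a piece
at every point above `x`.
-/

set_option autoImplicit false

namespace Pool.Agent.Q183.VC

open Polynomial IsDedekindDomain NumberField
open Pool.Agent.W223.CV Pool.Agent.W223.AC
open Pool.Agent.W125.CV (fv)

theorem total_le {A : Type} [CommRing A] {s : ℕ}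
    (z : Fin (s + 1) → A) {L : Type} [Field L] [NumberField L] (φ : A →+* L) (hz : φ (z 0) ≠ 0) :
    (∑ᶠ v : HeightOneSpectrum (𝓞 L), lamF z φ v) +
      ∑ w : InfinitePlace L, (w.mult : ℝ) * lamI z φ w ≤
      Real.log (Height.mulHeight₁ (φ (z 0))) := by
  have hfin := Pool.Agent.W125.CV.max_support_finite (φ (z 0))⁻¹
  have h4 : ∑ᶠ v : HeightOneSpectrum (𝓞 L), lamF z φ v ≤
      ∑ v ∈ hfin.toFinset, Real.log (max (fv v (φ (z 0))⁻¹) 1) := by
    have h5 : ∀ v : HeightOneSpectrum (𝓞 L),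
        lamF z φ v ≤ Real.log (max (fv v (φ (z 0))⁻¹) 1) := by
      intro v
      unfold lamF
      rw [map_inv₀]
      exact neg_log_sup_le (fun i => fv v (φ (z i))) ((fv v).pos_iff.2 hz)
    rw [finsum_eq_sum_of_support_subset (s := hfin.toFinset)]
    · exact Finset.sum_le_sum fun v _ => h5 v
    · intro v hv
      rw [Set.Finite.coe_toFinset]
      intro h6
      apply hv
      have h7 := h5 v
      rw [h6, Real.log_one] at h7
      exact le_antisymm h7 (lamF_nonneg z φ v)
  have h5 : ∑ w : InfinitePlace L, (w.mult : ℝ) * lamI z φ w ≤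
      ∑ w : InfinitePlace L, (w.mult : ℝ) * Real.log (max (w (φ (z 0))⁻¹) 1) := by
    refine Finset.sum_le_sum fun w _ => mul_le_mul_of_nonneg_left ?_ (Nat.cast_nonneg _)
    rw [map_inv₀]
    exact neg_log_sup_le (fun i => w (φ (z i))) (by
      show 0 < w (φ (z 0))
      exact w.pos_iff.2 hz)
  rw [← Height.mulHeight₁_inv, Pool.Agent.W125.CV.height_sum (φ (z 0))⁻¹ hfin.toFinset
    fun v hv => (Set.Finite.mem_toFinset _).2 hv]
  linarith

theorem star2 (K : Type) [Field K] [NumberField K] {A : Type} [CommRing A] [IsDedekindDomain A]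
    [Algebra ℚ A] [Algebra ℚ[X] A]
    [IsScalarTower ℚ ℚ[X] A] [Module.Finite ℚ[X] A] [FaithfulSMul ℚ[X] A]
    {q r : ℕ} (a : Fin q → ℚ) (b : Fin r → Fin q) (u : Fin r → ℕ) (z : ∀ l, Fin (u l + 1) → A)
    (hz : ∀ l, z l 0 = tt A - algebraMap ℚ[X] A (C (a (b l))))
    (hcov : ∀ k : Fin q, ∏ l with b l = k, Ideal.span (Set.range (z l)) ≤
      (Ideal.span {tt A - algebraMap ℚ[X] A (C (a k))}).radical)
    {κ : ℝ} (hκ : 0 < κ) :
    ∃ (M : ℕ) (C₁ : ℝ), M ≠ 0 ∧ 0 ≤ C₁ ∧
      ∀ (x : K), (∀ j, x ≠ (a j : K)) →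
      ∀ (L : Type) [Field L] [NumberField L] [Algebra K L] (φ : A →+* L),
        φ (tt A) = algebraMap K L x →
        (∀ w : HeightOneSpectrum (𝓞 L), (∀ p ∈ M.primeFactors, (p : 𝓞 L) ∉ w.asIdeal) →
          NearA a (algebraMap K L x) w → ∃ l, NearP (z l) φ w) ∧
        ∀ l, φ (z l 0) ≠ 0 ∧ (∑ᶠ v : HeightOneSpectrum (𝓞 L), lamF (z l) φ v) +
            ∑ w : InfinitePlace L, (w.mult : ℝ) * lamI (z l) φ w ≤
          ((Module.finrank ℚ (A ⧸ Ideal.span (Set.range (z l))) : ℝ) /
            Module.finrank ℚ[X] A + κ) *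
              (Module.finrank K L * Real.log (Height.mulHeight₁ x)) +
            Module.finrank ℚ L * C₁ := by
  classical
  have hNB := fun l => (Pool.Agent.W223.AC.nbp (Pool.Agent.W976.AC.EX.t Pool.Agent.W398.AC.DIM.t
      Pool.Agent.W193.AC.FINQ.t Pool.Agent.W989.AC.MULT.t) Pool.Agent.W756.AC.t
      (Pool.Agent.W410.AC.t Pool.Agent.W131.AC.t) Pool.Agent.W223.AC.SUMP.t
      Pool.Agent.W460.AC.t) A (a (b l)) (u l) (z l) (hz l) κ hκ
  choose Ck G hCk hG hNB' using hNB
  have hNE := fun k => nearN Pool.Agent.W989.AC.MULT.t Pool.Agent.W597.AC.t A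
    (tt A - algebraMap ℚ[X] A (C (a k))) r u z
    (Finset.univ.filter fun l => b l = k) (hcov k)
  choose M₂ hM₂ hNE' using hNE
  have hroots : ∀ l, ∃ H₀ : ℝ, 0 ≤ H₀ ∧ ∀ x : K, aeval x (G l) = 0 →
      Real.log (Height.mulHeight₁ x) ≤ H₀ := by
    intro l
    have hfin : ((G l).rootSet K).Finite := (G l).rootSet_finite K
    obtain ⟨H, hH⟩ := (hfin.image fun x => Real.log (Height.mulHeight₁ x)).bddAbove
    exact ⟨max H 0, le_max_right _ _, fun x hx =>
      le_max_of_le_left (hH ⟨x, (Polynomial.mem_rootSet_of_ne (hG l)).2 hx, rfl⟩)⟩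
  choose H₀ hH₀ hH₀' using hroots
  set n : ℝ := (Module.finrank ℚ K : ℝ) with hn
  have hn0 : 0 < n := by rw [hn]; exact_mod_cast Module.finrank_pos
  have hMt0 : ∏ k, (M₂ k * (a k).den) ≠ 0 :=
    Finset.prod_ne_zero_iff.mpr fun k _ => mul_ne_zero (hM₂ k) (a k).den_nz
  have hc : ∀ l, 0 ≤ Ck l + H₀ l / n + (Real.log 2 + Real.log (Height.mulHeight₁ (a (b l)))) := by
    intro l
    have h1 := hCk l
    have h2 := div_nonneg (hH₀ l) hn0.le
    have h3 : 0 ≤ Real.log 2 := Real.log_nonneg one_le_two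
    have h4 : 0 ≤ Real.log (Height.mulHeight₁ (a (b l))) :=
      Real.log_nonneg (Height.one_le_mulHeight₁ _)
    linarith
  refine ⟨∏ k, (M₂ k * (a k).den),
    ∑ l, (Ck l + H₀ l / n + (Real.log 2 + Real.log (Height.mulHeight₁ (a (b l))))), hMt0,
    Finset.sum_nonneg fun l _ => hc l, ?_⟩
  intro x hx L _ _ _ φ hφ
  have hz1 : ∀ k, φ (tt A - algebraMap ℚ[X] A (C (a k))) = algebraMap K L x - (a k : L) := by
    intro k
    rw [map_sub, hφ]
    congr 1
    exact eq_ratCast (φ.comp ((algebraMap ℚ[X] A).comp Polynomial.C)) (a k)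
  have hz0 : ∀ l, φ (z l 0) ≠ 0 := by
    intro l h
    rw [hz l, hz1, sub_eq_zero] at h
    apply hx (b l)
    apply FaithfulSMul.algebraMap_injective K L
    rw [h, map_ratCast]
  refine ⟨fun w hw hn => ?_, fun l => ⟨hz0 l, ?_⟩⟩
  · obtain ⟨k, -, hk⟩ := hn
    have hMv : ((∏ k, (M₂ k * (a k).den) : ℕ) : 𝓞 L) ∉ w.asIdeal := not_mem_of_primes hMt0 hw
    have hdiv : M₂ k * (a k).den ∣ ∏ k, (M₂ k * (a k).den) :=
      Finset.dvd_prod_of_mem (fun k => M₂ k * (a k).den) (Finset.mem_univ k)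
    have hdv : (((a k).den : ℕ) : 𝓞 L) ∉ w.asIdeal :=
      not_mem_of_dvd ((Dvd.intro_left _ rfl).trans hdiv) hMv
    have hM2v : ((M₂ k : ℕ) : 𝓞 L) ∉ w.asIdeal :=
      not_mem_of_dvd ((Dvd.intro _ rfl).trans hdiv) hMv
    obtain ⟨h2, h3⟩ := near_pt (a k) (algebraMap K L x) w hdv hk
    rw [← hφ] at h2
    obtain ⟨l, -, h5⟩ := hNE' k L φ w hM2v h2 (by rw [hz1]; exact h3)
    exact ⟨l, h2, h5⟩
  · obtain ⟨m, hm⟩ : ∃ m : ℝ, m = (Module.finrank K L : ℝ) := ⟨_, rfl⟩
    have hm0 : 0 < m := by rw [hm]; exact_mod_cast Module.finrank_pos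
    have htow : (Module.finrank ℚ L : ℝ) = n * m := by
      rw [hn, hm]
      exact_mod_cast (Module.finrank_mul_finrank ℚ K L).symm
    obtain ⟨H, hH⟩ : ∃ H : ℝ, H = Real.log (Height.mulHeight₁ x) := ⟨_, rfl⟩
    have hH0 : 0 ≤ H := by rw [hH]; exact Real.log_nonneg (Height.one_le_mulHeight₁ _)
    have hHξ : Real.log (Height.mulHeight₁ (φ (tt A))) = m * H := by
      rw [hφ, Pool.Agent.W223.AC.MK.log_height_ext L x, ← hm, ← hH]
    have hsum : Ck l + H₀ l / n + (Real.log 2 + Real.log (Height.mulHeight₁ (a (b l)))) ≤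
        ∑ l, (Ck l + H₀ l / n + (Real.log 2 + Real.log (Height.mulHeight₁ (a (b l))))) :=
      Finset.single_le_sum (f := fun l => Ck l + H₀ l / n +
        (Real.log 2 + Real.log (Height.mulHeight₁ (a (b l))))) (fun l _ => hc l)
        (Finset.mem_univ l)
    have hnm : 0 ≤ n * m := by positivity
    have hsum' := mul_le_mul_of_nonneg_left hsum hnm
    rw [← hm, ← hH, htow]
    refine le_trans ?_ (add_le_add_right hsum' _)
    have hdim : (0 : ℝ) ≤ (Module.finrank ℚ (A ⧸ Ideal.span (Set.range (z l))) : ℝ) /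
            Module.finrank ℚ[X] A + κ := by positivity
    by_cases hGx : aeval x (G l) = 0
    · refine (total_le (z l) φ (hz0 l)).trans ?_
      rw [hz l, hz1]
      have e1 : (a (b l) : L) = algebraMap ℚ L (a (b l)) := rfl
      rw [e1]
      have h2 := Height.logHeight₁_sub_le (algebraMap K L x) (algebraMap ℚ L (a (b l)))
      rw [Height.logHeight₁_eq_log_mulHeight₁, Height.logHeight₁_eq_log_mulHeight₁,
        Height.logHeight₁_eq_log_mulHeight₁,
        Pool.Agent.W223.AC.MK.log_height_ext L x, Pool.Agent.W223.AC.MK.log_height_ext L (a (b l)),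
        NumberField.totalWeight_eq_finrank, htow, ← hm, ← hH] at h2
      have h3 := hH₀' l x hGx
      rw [← hH] at h3
      have h4 : m * H ≤ n * m * (H₀ l / n) := by
        have e1 : n * m * (H₀ l / n) = m * H₀ l := by field_simp
        rw [e1]
        exact mul_le_mul_of_nonneg_left h3 hm0.le
      have h5 : 0 ≤ ((Module.finrank ℚ (A ⧸ Ideal.span (Set.range (z l))) : ℝ) /
            Module.finrank ℚ[X] A + κ) * (m * H) := by positivity
      have h6 : 0 ≤ n * m * Ck l := mul_nonneg hnm (hCk l)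
      have h7 : n * m * (Ck l + H₀ l / n + (Real.log 2 + Real.log (Height.mulHeight₁ (a (b l))))) =
          n * m * Ck l + n * m * (H₀ l / n) + (n * m * Real.log 2 +
            n * m * Real.log (Height.mulHeight₁ (a (b l)))) := by ring
      rw [h7]
      have h8 : m * (n * Real.log (Height.mulHeight₁ (a (b l)))) =
        n * m * Real.log (Height.mulHeight₁ (a (b l))) := by ring
      linarith
    · have hGL : aeval (φ (tt A)) (G l) ≠ 0 := by
        rw [hφ, aeval_algebraMap_apply]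
        intro h
        rw [map_eq_zero] at h
        exact hGx h
      obtain ⟨-, h2⟩ := hNB' l L φ hGL (hz0 l)
      rw [hHξ, htow] at h2
      refine h2.trans (add_le_add_right ?_ _)
      refine mul_le_mul_of_nonneg_left ?_ hnm
      have h1 := div_nonneg (hH₀ l) hn0.le
      have h3 : 0 ≤ Real.log 2 := Real.log_nonneg one_le_two
      have h4 : 0 ≤ Real.log (Height.mulHeight₁ (a (b l))) :=
        Real.log_nonneg (Height.one_le_mulHeight₁ _)
      linarith

end Pool.Agent.Q183.VC
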